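import Pool.Agent.Helper2.Zp.Degree

/-!
Counting places above a given place in a finite Galois extension.
-/

set_option autoImplicit false

namespace ZpTower

open IsLocalRing IsDedekindDomain

variable {k K L : Type*} [Field k] [Field K] [Field L] [Algebra k K] [Algebra k L] [Algebra K L]
  [IsScalarTower k K L]

/-- The set of places of `L` above the place `v` of `K`. -/
def Place.over (L : Type*) [Field L] [Algebra k L] [Algebra K L] [IsScalarTower k K L]
    [Algebra.IsAlgebraic K L] (v : Place k K) : Set (Place k L) :=
  {w | w.restrict K = v}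

section Count

variable [FiniteDimensional K L] [Algebra.IsSeparable K L]

/-- Places above `v` correspond to primes above `v`. -/
noncomputable def overEquiv (v : Place k K) :
    v.over L ≃ (maximalIdeal v.ring).primesOver (integralClosure v.ring L) where
  toFun w := ⟨primeOf w.2, inferInstance, inferInstance⟩
  invFun P := letI := P.2.1; letI := P.2.2; ⟨placeOf v P.1, restrict_placeOf v P.1⟩
  left_inv w := by
    apply Subtype.ext
    apply Place.ext
    exact ring_eq w.2
  right_inv P := by
    apply Subtype.ext
    let := P.2.1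
    let := P.2.2
    exact primeOf_placeOf v P.1

theorem over_nonempty (v : Place k K) : (v.over L).Nonempty := by
  have : Nonempty ((maximalIdeal v.ring).primesOver (integralClosure v.ring L)) := inferInstance
  obtain ⟨P⟩ := this
  exact ⟨_, ((overEquiv v).symm P).2⟩

theorem over_finite (v : Place k K) : (v.over L).Finite := by
  have : Finite ((maximalIdeal v.ring).primesOver (integralClosure v.ring L)) :=
    Algebra.QuasiFinite.finite_primesOver _
  have h1 : Finite (v.over L) := Finite.of_equiv _ (overEquiv v).symm
  exact Set.toFinite _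

theorem over_ncard (v : Place k K) : (v.over L).ncard =
    ((maximalIdeal v.ring).primesOver (integralClosure v.ring L)).ncard :=
  Nat.card_congr (overEquiv v)

variable {v : Place k K} {w : Place k L} (h : w.restrict K = v)

theorem ramificationIdx_eq_one (hw : w.IsUnramified K) :
    (primeOf h).ramificationIdx v.ring = 1 := by
  have hpos : 0 < (primeOf h).ramificationIdx v.ring := Ideal.ramificationIdx_pos _ _
  have hm : (maximalIdeal v.ring).map (algebraMap v.ring (integralClosure v.ring L)) ≠ ⊥ := by
    rw [Ne, Ideal.map_eq_bot_iff_of_injective (algebraMap_intCl_injective v)]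
    exact maximalIdeal_ne_bot v
  have h1 : ¬ (primeOf h) ^ 2 ∣ (maximalIdeal v.ring).map (algebraMap v.ring (integralClosure v.ring L)) := by
    intro hdvd
    have hle := Ideal.le_of_dvd hdvd
    -- uniformizer
    obtain ⟨ϖ, hϖ⟩ := IsDiscreteValuationRing.exists_irreducible w.ring
    obtain ⟨t, ht⟩ := hw (ϖ : L)
    have hϖ1 : w.ring.valuation (ϖ : L) < 1 :=
      (w.ring.valuation_lt_one_iff ϖ).mp (by
        rw [hϖ.maximalIdeal_eq]; exact Ideal.mem_span_singleton_self _)
    have htw : algebraMap K L t ∈ w.ring := by
      apply w.ring.mem_of_valuation_le_one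
      rw [ht]
      exact hϖ1.le
    have htv : t ∈ v.ring := by
      subst h
      exact htw
    have htmax : (⟨t, htv⟩ : v.ring) ∈ maximalIdeal v.ring := by
      have h0 : (⟨t, htv⟩ : v.ring) ∈ (primeOf h).under v.ring := by
        rw [Ideal.under_def, Ideal.mem_comap, mem_primeOf, w.ring.valuation_lt_one_iff]
        show w.ring.valuation (algebraMap K L t) < 1
        rw [ht]
        exact hϖ1
      rwa [← Ideal.over_def (primeOf h) (maximalIdeal v.ring)] at h0
    have h2 : algebraMap v.ring (integralClosure v.ring L) ⟨t, htv⟩ ∈ (primeOf h) ^ 2 :=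
      hle (Ideal.mem_map_of_mem _ htmax)
    have h3 : toRing h (algebraMap v.ring (integralClosure v.ring L) ⟨t, htv⟩) ∈
        maximalIdeal w.ring ^ 2 := by
      have h4 := Ideal.mem_map_of_mem (toRing h) h2
      rw [Ideal.map_pow] at h4
      refine Ideal.pow_right_mono ?_ 2 h4
      rw [Ideal.map_le_iff_le_comap]
      exact le_rfl
    rw [hϖ.maximalIdeal_eq, Ideal.span_singleton_pow, Ideal.mem_span_singleton] at h3
    obtain ⟨c, hc⟩ := h3
    have h5 : w.ring.valuation (algebraMap K L t) = w.ring.valuation ((ϖ : L) ^ 2 * (c : L)) := by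
      congr 1
      exact congrArg (fun t : w.ring => (t : L)) hc
    rw [ht, map_mul, map_pow] at h5
    have hϖ0 : w.ring.valuation (ϖ : L) ≠ 0 := by
      rw [Valuation.ne_zero_iff]
      intro h0
      exact hϖ.ne_zero (Subtype.ext h0)
    have h6 : w.ring.valuation (ϖ : L) ^ 2 * w.ring.valuation (c : L) ≤
        w.ring.valuation (ϖ : L) ^ 2 := by
      have := w.ring.valuation_le_one c
      exact mul_le_of_le_one_right' this
    rw [← h5, pow_two] at h6
    have h7 : w.ring.valuation (ϖ : L) * w.ring.valuation (ϖ : L) < w.ring.valuation (ϖ : L) :=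
      mul_lt_of_lt_one_right (zero_lt_iff.mpr hϖ0) hϖ1
    exact absurd h6 (not_le.mpr h7)
  have h2 : (primeOf h).ramificationIdx v.ring < 2 := by
    rw [Ideal.IsDedekindDomain.ramificationIdx_eq_multiplicity (maximalIdeal v.ring) (primeOf h) hm]
    by_contra hlt
    push Not at hlt
    exact h1 (pow_dvd_of_le_multiplicity hlt)
  omega

end Count

section Galois

variable [FiniteDimensional K L] [IsGalois K L] {v : Place k K} {w : Place k L}
  (h : w.restrict K = v)

instance : IsGaloisGroup (L ≃ₐ[K] L) v.ring (integralClosure v.ring L) :=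
  IsGaloisGroup.of_isFractionRing (L ≃ₐ[K] L) v.ring (integralClosure v.ring L) K L

include h in
theorem fundamental_identity :
    (v.over L).ncard * ((primeOf h).ramificationIdx v.ring * (primeOf h).inertiaDeg v.ring) =
      Module.finrank K L := by
  rw [over_ncard, ← IsGalois.card_aut_eq_finrank K L,
    ← Ideal.ncard_primesOver_mul_ramificationIdxIn_mul_inertiaDegIn (maximalIdeal v.ring)
      (integralClosure v.ring L) (L ≃ₐ[K] L),
    Ideal.ramificationIdxIn_eq_ramificationIdx (maximalIdeal v.ring) (primeOf h) (L ≃ₐ[K] L),
    Ideal.inertiaDegIn_eq_inertiaDeg (maximalIdeal v.ring) (primeOf h) (L ≃ₐ[K] L)]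

end Galois

end ZpTower
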