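import Mathlib

/-!
# Places of function fields, zeta numerators, and `ℤ_p`-towers of curves
-/

set_option autoImplicit false

open scoped PowerSeries.WithPiTopology

namespace ZpTower

/-- A place of the field `F` over the field of constants `k`: a discrete valuation ring
of `F` (a subring of `F` with fraction field `F`) containing `k`. When `F` is the function field
of a smooth projective curve over `k`, these are exactly the closed points of the curve
(the valuation ring is the local ring of the point). -/
structure Place (k F : Type*) [Field k] [Field F] [Algebra k F] where
  /-- The local ring of the place. -/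
  ring : ValuationSubring F
  /-- The local ring contains the constants. -/
  algebraMap_mem : ∀ a : k, algebraMap k F a ∈ ring
  /-- The local ring is a discrete valuation ring. -/
  isDVR : IsDiscreteValuationRing ring

namespace Place

variable {k F : Type*} [Field k] [Field F] [Algebra k F]

instance (v : Place k F) : IsDiscreteValuationRing v.ring := v.isDVR

/-- The inclusion of the constants in the local ring of a place. -/
instance (v : Place k F) : Algebra k v.ring :=
  ((algebraMap k F).codRestrict v.ring.toSubring v.algebraMap_mem).toAlgebra

/-- The degree of a place: the degree over `k` of its residue field. -/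
noncomputable def degree (v : Place k F) : ℕ :=
  Module.finrank k (IsLocalRing.ResidueField v.ring)

@[ext]
theorem ext {v w : Place k F} (h : v.ring = w.ring) : v = w := by
  cases v; cases w; simp_all

/-- For an extension `L / K` of fields containing `k`, the place `w` of `L` lies over the place
`v` of `K` if the valuation ring of `v` is the intersection of `K` and the valuation ring of
`w`. -/
def LiesOver {K L : Type*} [Field K] [Field L] [Algebra k K] [Algebra k L] [Algebra K L]
    (w : Place k L) (v : Place k K) : Prop :=
  w.ring.comap (algebraMap K L) = v.ring

/-- A place `w` of `L` is unramified over the subfield `K` if the values (for `w`) of elements of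
`K` are all the values of elements of `L`, that is, if the ramification index is one. -/
def IsUnramified {L : Type*} [Field L] [Algebra k L] (K : Type*) [Field K] [Algebra K L]
    (w : Place k L) : Prop :=
  ∀ y : L, ∃ x : K, w.ring.valuation (algebraMap K L x) = w.ring.valuation y

end Place

/-- `F` is the function field of a smooth projective geometrically irreducible curve over the
(perfect) field `k`: it is a finite extension of a rational function field `k(x)`, and `k` is
algebraically closed in `F`. -/
structure IsFunctionField (k F : Type*) [Field k] [Field F] [Algebra k F] : Prop where
  exists_transcendental : ∃ x : F, Transcendental k x ∧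
    FiniteDimensional (IntermediateField.adjoin k {x}) F
  mem_of_isAlgebraic : ∀ x : F, IsAlgebraic k x → x ∈ (algebraMap k F).range

open PowerSeries in
/-- `P` is the numerator of the zeta function of (the curve with function field) `F` over the
finite field `k` with `q` elements: in `ℤ⟦s⟧` the product `E(s) = ∏ (1 - s ^ deg x)` over all
places `x` converges, and `P(s) * E(s) = (1 - s) * (1 - q s)`; in other words
`Z(s) = ∏ (1 - s ^ deg x)⁻¹ = P(s) / ((1 - s) (1 - q s))`. -/
def IsZetaNumerator (k F : Type*) [Field k] [Field F] [Algebra k F] (P : Polynomial ℤ) : Prop :=
  ∃ E : ℤ⟦X⟧, HasProd (fun x : Place k F => (1 - X ^ x.degree : ℤ⟦X⟧)) E ∧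
    (P : ℤ⟦X⟧) * E = (1 - X) * (1 - C (Nat.card k : ℤ) * X)

/-- `X 0 ⊆ X 1 ⊆ X 2 ⊆ ...` is a `ℤ_p`-tower of function fields of smooth projective
geometrically irreducible curves over `k`, with bottom field `K` and finite ramification locus:
`X n / K` is Galois with cyclic group of order `p ^ n`, the field `X n` is a function field in
one variable with exact field of constants `k`, and only finitely many places of `K` ramify in
the tower. -/
structure IsZpTower (p : ℕ) (k K Ω : Type*) [Field k] [Field K] [Field Ω] [Algebra k K]
    [Algebra k Ω] [Algebra K Ω] [IsScalarTower k K Ω] (X : ℕ → IntermediateField K Ω) : Prop where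
  isFunctionField_base : IsFunctionField k K
  le_succ : ∀ n, X n ≤ X (n + 1)
  isGalois : ∀ n, IsGalois K (X n)
  isCyclic : ∀ n, IsCyclic (X n ≃ₐ[K] X n)
  finrank_eq : ∀ n, Module.finrank K (X n) = p ^ n
  isFunctionField : ∀ n, IsFunctionField k (X n)
  finite_ramification :
    {v : Place k K | ∃ n, ∃ w : Place k (X n), w.LiesOver v ∧ ¬ w.IsUnramified K}.Finite

end ZpTower
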