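import Pool.Agent.Helper2.Zp.Primes

/-!
Degrees and the fundamental identity for places.
-/

set_option autoImplicit false

namespace ZpTower

open IsLocalRing IsDedekindDomain

variable {k K L : Type*} [Field k] [Field K] [Field L] [Algebra k K] [Algebra k L] [Algebra K L]
  [IsScalarTower k K L]

instance (v : Place k K) : IsScalarTower k v.ring K := IsScalarTower.of_algebraMap_eq fun _ => rfl

instance (v : Place k K) : IsScalarTower k v.ring L := IsScalarTower.of_algebraMap_eq fun x => by
  rw [IsScalarTower.algebraMap_apply k K L]
  rfl


variable [FiniteDimensional K L] [Algebra.IsSeparable K L]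

section Over

variable {v : Place k K} {w : Place k L} (h : w.restrict K = v)

instance (v : Place k K) : (maximalIdeal v.ring).IsMaximal := maximalIdeal.isMaximal _

instance primeOf_isMaximal : (primeOf h).IsMaximal :=
  Ideal.IsPrime.isMaximal inferInstance (primeOf_ne_bot h)

/-- The isomorphism of residue fields. -/
noncomputable def residueMap : (integralClosure v.ring L ⧸ primeOf h) →+* ResidueField w.ring :=
  Ideal.Quotient.lift (primeOf h) ((residue w.ring).comp (toRing h)) (fun b hb => by
    rw [RingHom.comp_apply, residue_eq_zero_iff]
    exact hb)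

theorem residueMap_bijective : Function.Bijective (residueMap h) := by
  constructor
  · let : Field (integralClosure v.ring L ⧸ primeOf h) := Ideal.Quotient.field _
    exact (residueMap h).injective
  · intro y
    obtain ⟨x, rfl⟩ := residue_surjective y
    have hx : (x : L) ∈ HeightOneSpectrum.valuationSubringAtPrime L (specOf h) := by
      rw [ring_eq h]
      exact x.2
    obtain ⟨a, s, hs, hxe⟩ := hx
    have hsu : IsUnit (toRing h s) := by
      by_contra hu
      exact hs ((mem_maximalIdeal _).mpr hu)
    -- find an inverse of s modulo P
    have hs0 : (Ideal.Quotient.mk (primeOf h) s) ≠ 0 := by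
      rw [Ne, Ideal.Quotient.eq_zero_iff_mem]
      exact hs
    let : Field (integralClosure v.ring L ⧸ primeOf h) := Ideal.Quotient.field _
    refine ⟨Ideal.Quotient.mk (primeOf h) a * (Ideal.Quotient.mk (primeOf h) s)⁻¹, ?_⟩
    rw [map_mul, map_inv₀]
    have e1 : residueMap h (Ideal.Quotient.mk (primeOf h) a) = residue w.ring (toRing h a) := rfl
    have e2 : residueMap h (Ideal.Quotient.mk (primeOf h) s) = residue w.ring (toRing h s) := rfl
    rw [e1, e2]
    have hres : residue w.ring (toRing h s) ≠ 0 := by
      rw [Ne, residue_eq_zero_iff, mem_maximalIdeal]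
      exact fun hh => hh hsu
    rw [← div_eq_mul_inv, div_eq_iff hres, ← map_mul]
    congr 1
    apply Subtype.ext
    show (a : L) = (x : L) * (s : L)
    have hs00 : (s : L) ≠ 0 := by
      intro h0
      apply hs
      have : s = 0 := Subtype.ext h0
      rw [this]
      exact (primeOf h).zero_mem
    have hxe' : (x : L) = (a : L) * (s : L)⁻¹ := hxe
    rw [hxe', mul_assoc, inv_mul_cancel₀ hs00, mul_one]

theorem degree_eq : w.degree = v.degree * (primeOf h).inertiaDeg v.ring := by
  rw [Ideal.inertiaDeg_eq_of_isMaximal (maximalIdeal v.ring) (primeOf h)]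
  have h1 : w.degree = Module.finrank k (integralClosure v.ring L ⧸ primeOf h) := by
    unfold Place.degree
    refine (Algebra.finrank_eq_of_equiv_equiv (RingEquiv.refl k)
      (RingEquiv.ofBijective (residueMap h) (residueMap_bijective h)) ?_).symm
    ext x
    have e1 : (algebraMap k (integralClosure v.ring L ⧸ primeOf h)) x =
      Ideal.Quotient.mk (primeOf h) (algebraMap k (integralClosure v.ring L) x) := rfl
    simp only [RingHom.comp_apply, RingEquiv.toRingHom_eq_coe, RingHom.coe_coe,
      RingEquiv.refl_apply, RingEquiv.ofBijective_apply, e1]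
    have e2 : residueMap h (Ideal.Quotient.mk (primeOf h) (algebraMap k (integralClosure v.ring L) x))
      = residue w.ring (toRing h (algebraMap k (integralClosure v.ring L) x)) := rfl
    rw [e2]
    have e3 : algebraMap k (ResidueField w.ring) x = residue w.ring (algebraMap k w.ring x) := rfl
    rw [e3]
    congr 1
  rw [h1]
  let : Field (v.ring ⧸ maximalIdeal v.ring) := Ideal.Quotient.field _
  have : IsScalarTower k (v.ring ⧸ maximalIdeal v.ring) (integralClosure v.ring L ⧸ primeOf h) := by
    refine IsScalarTower.of_algebraMap_eq fun x => ?_
    show Ideal.Quotient.mk (primeOf h) (algebraMap k (integralClosure v.ring L) x) =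
      Ideal.Quotient.mk (primeOf h) (algebraMap v.ring (integralClosure v.ring L)
        (algebraMap k v.ring x))
    congr 1
    apply Subtype.ext
    show algebraMap k L x = algebraMap K L (algebraMap k K x)
    exact IsScalarTower.algebraMap_apply k K L x
  rw [← Module.finrank_mul_finrank k (v.ring ⧸ maximalIdeal v.ring)]
  rfl

end Over

end ZpTower
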