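import Mathlib

/-!
Formal infinite products `∏ (1 - X ^ d i)` in `ℤ⟦X⟧`.
-/

set_option autoImplicit false

open PowerSeries Filter Topology
open scoped PowerSeries.WithPiTopology

namespace Pool.Agent.Helper2.Zp

section Cg

variable {R : Type*} [CommRing R]

/-- Congruence of power series modulo `X ^ n`. -/
def Cg (n : ℕ) (A B : R⟦X⟧) : Prop := (X : R⟦X⟧) ^ n ∣ A - B

theorem Cg.refl (n : ℕ) (A : R⟦X⟧) : Cg n A A := by simp [Cg]

theorem Cg.symm {n : ℕ} {A B : R⟦X⟧} (h : Cg n A B) : Cg n B A := by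
  have := (dvd_neg (a := (X : R⟦X⟧) ^ n)).mpr h
  simpa [Cg] using this

theorem Cg.trans {n : ℕ} {A B C : R⟦X⟧} (h : Cg n A B) (h' : Cg n B C) : Cg n A C := by
  have := dvd_add h h'
  simpa [Cg] using this

theorem Cg.mul {n : ℕ} {A B C D : R⟦X⟧} (h : Cg n A B) (h' : Cg n C D) : Cg n (A * C) (B * D) := by
  have e : A * C - B * D = (A - B) * C + B * (C - D) := by ring
  rw [Cg, e]
  exact dvd_add (Dvd.dvd.mul_right h _) (Dvd.dvd.mul_left h' _)

theorem Cg.mono {n m : ℕ} (hnm : m ≤ n) {A B : R⟦X⟧} (h : Cg n A B) : Cg m A B :=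
  (pow_dvd_pow _ hnm).trans h

theorem cg_iff {n : ℕ} {A B : R⟦X⟧} : Cg n A B ↔ ∀ m < n, coeff m A = coeff m B := by
  rw [Cg, PowerSeries.X_pow_dvd_iff]
  simp [sub_eq_zero]

theorem Cg.prod {κ : Type*} {n : ℕ} (T : Finset κ) {A B : κ → R⟦X⟧}
    (h : ∀ i ∈ T, Cg n (A i) (B i)) : Cg n (∏ i ∈ T, A i) (∏ i ∈ T, B i) := by
  classical
  induction T using Finset.induction_on with
  | empty => simpa using Cg.refl n 1
  | insert a s ha ih =>
    rw [Finset.prod_insert ha, Finset.prod_insert ha]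
    exact (h a (Finset.mem_insert_self a s)).mul
      (ih fun i hi => h i (Finset.mem_insert_of_mem hi))

theorem Cg.map {S : Type*} [CommRing S] (f : R →+* S) {n : ℕ} {A B : R⟦X⟧} (h : Cg n A B) :
    Cg n (PowerSeries.map f A) (PowerSeries.map f B) := by
  rw [cg_iff] at h ⊢
  intro m hm
  simp [h m hm]

end Cg

section Maj

/-- Coefficientwise majorant relation. -/
def Maj (A B : ℤ⟦X⟧) : Prop := ∀ m, |coeff m A| ≤ coeff m B

theorem Maj.mul {A B C D : ℤ⟦X⟧} (h : Maj A B) (h' : Maj C D) : Maj (A * C) (B * D) := by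
  intro m
  rw [coeff_mul, coeff_mul]
  refine (Finset.abs_sum_le_sum_abs _ _).trans (Finset.sum_le_sum fun x _ => ?_)
  rw [abs_mul]
  exact mul_le_mul (h _) (h' _) (abs_nonneg _) ((abs_nonneg _).trans (h _))

theorem Maj.prod {κ : Type*} (T : Finset κ) {A B : κ → ℤ⟦X⟧}
    (h : ∀ i ∈ T, Maj (A i) (B i)) : Maj (∏ i ∈ T, A i) (∏ i ∈ T, B i) := by
  classical
  induction T using Finset.induction_on with
  | empty =>
    intro m
    rw [Finset.prod_empty, Finset.prod_empty, coeff_one]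
    split_ifs <;> simp
  | insert a s ha ih =>
    rw [Finset.prod_insert ha, Finset.prod_insert ha]
    exact (h a (Finset.mem_insert_self a s)).mul
      (ih fun i hi => h i (Finset.mem_insert_of_mem hi))

/-- The geometric series `∑ X ^ (j d)`. -/
noncomputable def geom (d : ℕ) : ℤ⟦X⟧ := PowerSeries.mk fun m => if d ∣ m then 1 else 0

theorem coeff_geom (d m : ℕ) : coeff m (geom d) = if d ∣ m then 1 else 0 := by
  simp [geom]

theorem one_sub_mul_geom {d : ℕ} (hd : 0 < d) : (1 - X ^ d : ℤ⟦X⟧) * geom d = 1 := by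
  ext m
  rw [sub_mul, one_mul, map_sub, coeff_geom, coeff_one, coeff_X_pow_mul']
  rcases Nat.eq_zero_or_pos m with hm | hm
  · subst hm
    simp [Nat.not_le.mpr hd]
  · by_cases hdm : d ≤ m
    · rw [if_pos hdm, coeff_geom]
      have : d ∣ m - d ↔ d ∣ m := by
        constructor
        · intro h
          have := dvd_add h (dvd_refl d)
          rwa [Nat.sub_add_cancel hdm] at this
        · intro h
          exact Nat.dvd_sub h (dvd_refl d)
      simp only [this]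
      simp [Nat.pos_iff_ne_zero.mp hm]
    · rw [if_neg hdm, if_neg (fun h => hdm (Nat.le_of_dvd hm h))]
      simp [Nat.pos_iff_ne_zero.mp hm]

theorem maj_geom (d : ℕ) (hd : 0 < d) : Maj (1 - X ^ d : ℤ⟦X⟧) (geom d) := by
  intro m
  rw [coeff_geom, map_sub, coeff_one, coeff_X_pow]
  by_cases h0 : m = 0
  · subst h0
    simp [hd.ne]
  · by_cases h1 : m = d
    · subst h1; simp [h0]
    · rw [if_neg h0, if_neg h1]
      split_ifs <;> simp

theorem maj_geom_self (d : ℕ) : Maj (geom d) (geom d) := by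
  intro m
  rw [coeff_geom]
  split_ifs <;> simp

end Maj

variable {ι : Type*} {d : ι → ℕ} {E : ℤ⟦X⟧}

theorem eventually_coeff_eq (h : HasProd (fun i => (1 - X ^ d i : ℤ⟦X⟧)) E) (m : ℕ) :
    ∀ᶠ T : Finset ι in atTop, coeff m (∏ i ∈ T, (1 - X ^ d i : ℤ⟦X⟧)) = coeff m E := by
  have h1 : Tendsto (fun T : Finset ι => ∏ i ∈ T, (1 - X ^ d i : ℤ⟦X⟧)) atTop (𝓝 E) := by
    simpa [HasProd] using h
  rw [PowerSeries.WithPiTopology.tendsto_iff_coeff_tendsto] at h1
  have h2 := h1 m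
  rw [nhds_discrete, tendsto_pure] at h2
  exact h2

theorem exists_finset_coeff_eq (h : HasProd (fun i => (1 - X ^ d i : ℤ⟦X⟧)) E) (N : ℕ) :
    ∃ T₀ : Finset ι, ∀ T : Finset ι, T₀ ⊆ T →
      Cg N (∏ i ∈ T, (1 - X ^ d i : ℤ⟦X⟧)) E := by
  have h1 : ∀ᶠ T : Finset ι in atTop, ∀ m ∈ Finset.range N,
      coeff m (∏ i ∈ T, (1 - X ^ d i : ℤ⟦X⟧)) = coeff m E := by
    rw [Filter.eventually_all_finset]
    intro m _
    exact eventually_coeff_eq h m
  rw [eventually_atTop] at h1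
  obtain ⟨T₀, hT₀⟩ := h1
  exact ⟨T₀, fun T hT => cg_iff.mpr fun m hm => hT₀ T hT m (Finset.mem_range.mpr hm)⟩

theorem constantCoeff_finprod (hpos : ∀ i, 0 < d i) (T : Finset ι) :
    constantCoeff (∏ i ∈ T, (1 - X ^ d i : ℤ⟦X⟧)) = 1 := by
  rw [map_prod]
  refine Finset.prod_eq_one fun i _ => ?_
  simp [(hpos i).ne']

theorem pos_of_hasProd (h : HasProd (fun i => (1 - X ^ d i : ℤ⟦X⟧)) E) (hE : E ≠ 0) (i : ι) :
    0 < d i := by
  classical
  by_contra hi
  have hi0 : d i = 0 := by omega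
  apply hE
  ext m
  obtain ⟨T₀, hT₀⟩ := exists_finset_coeff_eq h (m + 1)
  have h1 := cg_iff.mp (hT₀ (insert i T₀) (Finset.subset_insert i T₀)) m (Nat.lt_succ_self m)
  rw [← h1, Finset.prod_eq_zero (Finset.mem_insert_self i T₀) (by simp [hi0])]

theorem finite_le_of_hasProd (h : HasProd (fun i => (1 - X ^ d i : ℤ⟦X⟧)) E) (hE : E ≠ 0)
    (N : ℕ) : {i | d i ≤ N}.Finite := by
  classical
  obtain ⟨T₀, hT₀⟩ := exists_finset_coeff_eq h (N + 1)
  refine T₀.finite_toSet.subset fun i hi => ?_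
  by_contra hiT
  have hiT' : i ∉ T₀ := by simpa using hiT
  have h1 := (hT₀ (insert i T₀) (Finset.subset_insert i T₀)).trans (hT₀ T₀ (Finset.Subset.refl T₀)).symm
  rw [Finset.prod_insert hiT', cg_iff] at h1
  have h2 := h1 (d i) (Nat.lt_succ_of_le hi)
  rw [sub_mul, one_mul, map_sub, coeff_X_pow_mul', if_pos le_rfl, Nat.sub_self,
    coeff_zero_eq_constantCoeff_apply, constantCoeff_finprod (pos_of_hasProd h hE)] at h2
  omega

theorem cg_of_hasProd (h : HasProd (fun i => (1 - X ^ d i : ℤ⟦X⟧)) E)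
    (N : ℕ) (T : Finset ι) (hT : ∀ i, d i < N → i ∈ T) :
    Cg N (∏ i ∈ T, (1 - X ^ d i : ℤ⟦X⟧)) E := by
  classical
  obtain ⟨T₀, hT₀⟩ := exists_finset_coeff_eq h N
  refine Cg.trans ?_ (hT₀ (T ∪ T₀) Finset.subset_union_right)
  have h1 : ∏ i ∈ T ∪ T₀, (1 - X ^ d i : ℤ⟦X⟧)
      = (∏ i ∈ T, (1 - X ^ d i : ℤ⟦X⟧)) * ∏ i ∈ T₀ \ T, (1 - X ^ d i : ℤ⟦X⟧) := by
    rw [← Finset.prod_union Finset.disjoint_sdiff, Finset.union_sdiff_self_eq_union]
  rw [h1]
  have h2 : Cg N (∏ i ∈ T₀ \ T, (1 - X ^ d i : ℤ⟦X⟧)) (∏ i ∈ T₀ \ T, (1 : ℤ⟦X⟧)) := by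
    refine Cg.prod _ fun i hi => ?_
    have hi' : ¬ d i < N := fun hlt => (Finset.mem_sdiff.mp hi).2 (hT i hlt)
    rw [Cg]
    have e : (1 - X ^ d i : ℤ⟦X⟧) - 1 = -(X ^ d i) := by ring
    rw [e, dvd_neg]
    exact pow_dvd_pow _ (not_lt.mp hi')
  rw [Finset.prod_const_one] at h2
  have h3 := (Cg.refl N (∏ i ∈ T, (1 - X ^ d i : ℤ⟦X⟧))).mul h2
  rw [mul_one] at h3
  exact h3.symm

theorem constantCoeff_of_hasProd (h : HasProd (fun i => (1 - X ^ d i : ℤ⟦X⟧)) E) (hE : E ≠ 0) :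
    constantCoeff E = 1 := by
  have hfin := finite_le_of_hasProd h hE 1
  have h1 := cg_of_hasProd h 1 hfin.toFinset (fun i hi => by simpa using hi.le)
  have h2 := cg_iff.mp h1 0 (by norm_num)
  rw [coeff_zero_eq_constantCoeff_apply, coeff_zero_eq_constantCoeff_apply,
    constantCoeff_finprod (pos_of_hasProd h hE)] at h2
  exact h2.symm

/-- `E` is the Euler product `∏ (1 - X ^ d i)`, expressed through congruences. -/
structure IsEuler (d : ι → ℕ) (E : ℤ⟦X⟧) : Prop where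
  pos : ∀ i, 0 < d i
  fin : ∀ N, {i | d i ≤ N}.Finite
  cg : ∀ N (T : Finset ι), (∀ i, d i < N → i ∈ T) → Cg N (∏ i ∈ T, (1 - X ^ d i : ℤ⟦X⟧)) E

theorem isEuler_of_hasProd (h : HasProd (fun i => (1 - X ^ d i : ℤ⟦X⟧)) E) (hE : E ≠ 0) :
    IsEuler d E :=
  ⟨pos_of_hasProd h hE, finite_le_of_hasProd h hE, cg_of_hasProd h⟩

theorem IsEuler.constantCoeff (h : IsEuler d E) : PowerSeries.constantCoeff E = 1 := by
  have h1 := h.cg 1 (h.fin 1).toFinset (fun i hi => by simpa using hi.le)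
  have h2 := cg_iff.mp h1 0 (by norm_num)
  rw [coeff_zero_eq_constantCoeff_apply, coeff_zero_eq_constantCoeff_apply,
    constantCoeff_finprod h.pos] at h2
  exact h2.symm

/-- Inverse of an Euler product: nonnegative coefficients, majorising the product. -/
theorem exists_inverse (h : IsEuler d E) :
    ∃ Z : ℤ⟦X⟧, Z * E = 1 ∧ (∀ m, 0 ≤ coeff m Z) ∧ Maj E Z ∧
      ∀ i m, d i ∣ m → 1 ≤ coeff m Z := by
  classical
  have hpos := h.pos
  have hu : IsUnit E := by
    rw [PowerSeries.isUnit_iff_constantCoeff, h.constantCoeff]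
    exact isUnit_one
  obtain ⟨Z, hZ⟩ := hu.exists_left_inv
  -- approximations
  have key : ∀ N (T : Finset ι), (∀ i, d i < N → i ∈ T) → Cg N Z (∏ i ∈ T, geom (d i)) := by
    intro N T hT
    have h1 := h.cg N T hT
    have h2 : (∏ i ∈ T, (1 - X ^ d i : ℤ⟦X⟧)) * ∏ i ∈ T, geom (d i) = 1 := by
      rw [← Finset.prod_mul_distrib]
      exact Finset.prod_eq_one fun i _ => one_sub_mul_geom (hpos i)
    have h3 := ((Cg.refl N Z).mul h1).mul (Cg.refl N (∏ i ∈ T, geom (d i)))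
    rw [hZ, one_mul, mul_assoc, h2, mul_one] at h3
    exact h3
  have hfin := h.fin
  refine ⟨Z, hZ, fun m => ?_, fun m => ?_, fun i m him => ?_⟩
  · have h1 := cg_iff.mp (key (m + 1) (hfin m).toFinset
      (fun i hi => by simpa using Nat.lt_succ_iff.mp hi)) m (Nat.lt_succ_self m)
    rw [h1]
    exact (abs_nonneg _).trans (Maj.prod (hfin m).toFinset (fun i _ => maj_geom_self (d i)) m)
  · have h1 := cg_iff.mp (key (m + 1) (hfin m).toFinset
      (fun i hi => by simpa using Nat.lt_succ_iff.mp hi)) m (Nat.lt_succ_self m)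
    have h2 := cg_iff.mp (h.cg (m + 1) (hfin m).toFinset
      (fun i hi => by simpa using Nat.lt_succ_iff.mp hi)) m (Nat.lt_succ_self m)
    rw [h1, ← h2]
    exact Maj.prod (hfin m).toFinset (fun i _ => maj_geom (d i) (hpos i)) m
  · set T := insert i (hfin m).toFinset with hT
    have h1 := cg_iff.mp (key (m + 1) T
      (fun j hj => Finset.mem_insert_of_mem (by simpa using Nat.lt_succ_iff.mp hj))) m
        (Nat.lt_succ_self m)
    rw [h1, ← Finset.mul_prod_erase T _ (Finset.mem_insert_self i _), coeff_mul]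
    have hnn : ∀ j, 0 ≤ coeff j (∏ x ∈ T.erase i, geom (d x)) := fun j =>
      (abs_nonneg _).trans (Maj.prod (T.erase i) (fun i _ => maj_geom_self (d i)) j)
    have hone : coeff 0 (∏ x ∈ T.erase i, geom (d x)) = 1 := by
      rw [coeff_zero_eq_constantCoeff_apply, map_prod]
      refine Finset.prod_eq_one fun x _ => ?_
      rw [← coeff_zero_eq_constantCoeff_apply, coeff_geom]
      simp
    have hmem : (m, 0) ∈ Finset.HasAntidiagonal.antidiagonal m := by simp
    refine le_trans ?_ (Finset.single_le_sum (f := fun x : ℕ × ℕ =>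
      coeff x.1 (geom (d i)) * coeff x.2 (∏ x ∈ T.erase i, geom (d x))) ?_ hmem)
    · simp only
      rw [hone, coeff_geom, if_pos him]
      norm_num
    · intro x _
      refine mul_nonneg ?_ (hnn _)
      rw [coeff_geom]
      split_ifs <;> norm_num

end Pool.Agent.Helper2.Zp
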