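import Pool.Agent.Helper2.Zp.Skeleton

/-!
Final contradiction: not all unramified places can be completely split.
-/

set_option autoImplicit false

open PowerSeries Filter Topology

namespace Pool.Agent.Helper2.Zp

namespace TowerData

variable {V : Type*} {W : ℕ → Type*} {p : ℕ} (D : TowerData V W p)

theorem isUnit_of_constantCoeff_one {A : ℤ⟦X⟧} (h : constantCoeff A = 1) : IsUnit A := by
  rw [PowerSeries.isUnit_iff_constantCoeff, h]
  exact isUnit_one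

theorem eq_of_cg {A B : ℤ⟦X⟧} (h : ∀ N, Cg N A B) : A = B := by
  ext m
  exact cg_iff.mp (h (m + 1)) m (Nat.lt_succ_self m)

/-- In the polynomial ring: if `(1-X)(1-qX)` divides a power of `U` then it divides `U`
over `ℚ`. -/
theorem dvd_of_dvd_pow {U : Polynomial ℤ} {q m : ℕ} (hq : 2 ≤ q)
    (h : (1 - Polynomial.X) * (1 - Polynomial.C (q : ℤ) * Polynomial.X) ∣ U ^ m) :
    ((1 - Polynomial.X) * (1 - Polynomial.C (q : ℚ) * Polynomial.X) : Polynomial ℚ) ∣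
      U.map (Int.castRingHom ℚ) := by
  have hq0 : (q : ℚ) ≠ 0 := by
    have : q ≠ 0 := by omega
    exact_mod_cast this
  have hq1 : (q : ℚ) ≠ 1 := by
    have : q ≠ 1 := by omega
    exact_mod_cast this
  set Uq := U.map (Int.castRingHom ℚ) with hUq
  have h1 : ((1 - Polynomial.X) * (1 - Polynomial.C (q : ℚ) * Polynomial.X) : Polynomial ℚ) ∣ Uq ^ m := by
    have := Polynomial.map_dvd (Int.castRingHom ℚ) h
    simpa [Polynomial.map_mul, Polynomial.map_pow, hUq] using this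
  have e1 : Uq.eval 1 = 0 := by
    obtain ⟨G, hG⟩ := h1
    have := congrArg (Polynomial.eval 1) hG
    rw [Polynomial.eval_pow] at this
    have h2 : (Uq.eval 1) ^ m = 0 := by rw [this]; simp
    exact eq_zero_of_pow_eq_zero h2
  have e2 : Uq.eval (q : ℚ)⁻¹ = 0 := by
    obtain ⟨G, hG⟩ := h1
    have := congrArg (Polynomial.eval (q : ℚ)⁻¹) hG
    rw [Polynomial.eval_pow] at this
    have h2 : (Uq.eval (q : ℚ)⁻¹) ^ m = 0 := by
      rw [this]
      simp [mul_inv_cancel₀ hq0]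
    exact eq_zero_of_pow_eq_zero h2
  have d1 : (Polynomial.X - Polynomial.C 1) ∣ Uq := Polynomial.dvd_iff_isRoot.mpr e1
  have d2 : (Polynomial.X - Polynomial.C (q : ℚ)⁻¹) ∣ Uq := Polynomial.dvd_iff_isRoot.mpr e2
  have hne : (1 : ℚ) ≠ (q : ℚ)⁻¹ := by
    intro h
    exact hq1 (by rw [← inv_inv (q : ℚ), ← h, inv_one])
  have hcop : IsCoprime (Polynomial.X - Polynomial.C (1 : ℚ)) (Polynomial.X - Polynomial.C (q : ℚ)⁻¹) :=
    Polynomial.isCoprime_X_sub_C_of_isUnit_sub (sub_ne_zero.mpr hne).isUnit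
  have d3 := hcop.mul_dvd d1 d2
  have e3 : ((1 - Polynomial.X) * (1 - Polynomial.C (q : ℚ) * Polynomial.X) : Polynomial ℚ) =
      Polynomial.C (q : ℚ) * ((Polynomial.X - Polynomial.C 1) * (Polynomial.X - Polynomial.C (q : ℚ)⁻¹)) := by
    have e4 : Polynomial.C (q : ℚ) * Polynomial.C (q : ℚ)⁻¹ = 1 := by
      rw [← Polynomial.C_mul, mul_inv_cancel₀ hq0, Polynomial.C_1]
    rw [Polynomial.C_1]
    linear_combination -(1 - Polynomial.X) * e4
  rw [e3]
  exact (IsUnit.mul_left_dvd (Polynomial.isUnit_C.mpr hq0.isUnit)).mpr d3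

/-- The final contradiction. -/
theorem not_all_cs {E : ℕ → ℤ⟦X⟧} (hE : ∀ n, IsEuler (D.deg n) (E n)) {P : ℕ → Polynomial ℤ}
    {q : ℕ} (hq : 2 ≤ q) (hPE : ∀ n, (P n : ℤ⟦X⟧) * E n = (1 - X) * (1 - C (q : ℤ) * X))
    (hcs : ∀ v, v ∉ D.S → D.cs v) : False := by
  classical
  have hd : ∀ v, 0 < D.d v := D.d_pos (hE 0)
  have hfin : ∀ N, {v | D.d v ≤ N}.Finite := D.finite_base (hE 0)
  let Sf : Finset V := D.S_fin.toFinset
  have hSf : ∀ v, v ∉ Sf → D.cs v := fun v hv => hcs v (by simpa [Sf] using hv)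
  -- polynomial Euler factors at the places of S
  let A : ℕ → Polynomial ℤ := fun n => ∏ v ∈ Sf, (1 - Polynomial.X ^ (D.f n v * D.d v)) ^ D.g n v
  have hAcoe : ∀ n, (A n : ℤ⟦X⟧) = ∏ v ∈ Sf, (1 - X ^ (D.f n v * D.d v) : ℤ⟦X⟧) ^ D.g n v := by
    intro n
    rw [← Polynomial.coeToPowerSeries.ringHom_apply, map_prod]
    refine Finset.prod_congr rfl fun v _ => ?_
    simp
  have hAc : ∀ n, constantCoeff (A n : ℤ⟦X⟧) = 1 := by
    intro n
    rw [hAcoe, map_prod]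
    refine Finset.prod_eq_one fun v _ => ?_
    simp [(D.f_pos n v).ne', (hd v).ne']
  obtain ⟨A0inv, hA0inv⟩ := (isUnit_of_constantCoeff_one (hAc 0)).exists_left_inv
  set D' : ℤ⟦X⟧ := A0inv * E 0 with hD'
  have hE0 : E 0 = (A 0 : ℤ⟦X⟧) * D' := by
    rw [hD', ← mul_assoc, mul_comm (A 0 : ℤ⟦X⟧) A0inv, hA0inv, one_mul]
  -- `D'` is the Euler product over the complement
  let d' : {v // v ∉ Sf} → ℕ := fun v => D.d v.1
  have hcg' : ∀ N (T : Finset {v // v ∉ Sf}), (∀ v, d' v < N → v ∈ T) →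
      Cg N (∏ v ∈ T, (1 - X ^ d' v : ℤ⟦X⟧)) D' := by
    intro N T hT
    have h1 := D.cg_fib (hE 0) N (Sf ∪ T.map ⟨Subtype.val, Subtype.val_injective⟩) (fun v hv => by
      by_cases hvS : v ∈ Sf
      · exact Finset.mem_union_left _ hvS
      · refine Finset.mem_union_right _ (Finset.mem_map.mpr ⟨⟨v, hvS⟩, hT _ hv, rfl⟩))
    have hdisj : Disjoint Sf (T.map ⟨Subtype.val, Subtype.val_injective⟩) := by
      rw [Finset.disjoint_left]
      intro v hv hv'
      obtain ⟨w, _, rfl⟩ := Finset.mem_map.mp hv'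
      exact w.2 hv
    rw [Finset.prod_union hdisj, ← hAcoe, Finset.prod_map, hE0] at h1
    have h2 := (Cg.refl N A0inv).mul h1
    rw [← mul_assoc, ← mul_assoc, hA0inv, one_mul, one_mul] at h2
    refine Cg.trans ?_ h2
    have h3 : ∏ v ∈ T, (1 - X ^ d' v : ℤ⟦X⟧) = ∏ x ∈ T,
        (1 - X ^ (D.f 0 ((⟨Subtype.val, Subtype.val_injective⟩ : {v // v ∉ Sf} ↪ V) x) *
          D.d ((⟨Subtype.val, Subtype.val_injective⟩ : {v // v ∉ Sf} ↪ V) x)) : ℤ⟦X⟧) ^
          D.g 0 ((⟨Subtype.val, Subtype.val_injective⟩ : {v // v ∉ Sf} ↪ V) x) := by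
      refine Finset.prod_congr rfl fun v _ => ?_
      rw [D.f_zero, D.g_zero, one_mul, pow_one]
      rfl
    rw [h3]
    exact Cg.refl _ _
  have hD'E : IsEuler d' D' :=
    ⟨fun v => hd v.1, fun N => (hfin N).preimage (Subtype.val_injective.injOn), hcg'⟩
  -- `E n = A n * D' ^ (p ^ n)`
  have hEn : ∀ n, E n = (A n : ℤ⟦X⟧) * D' ^ (p ^ n) := by
    intro n
    refine (eq_of_cg fun N => ?_).symm
    let T : Finset {v // v ∉ Sf} := ((hfin N).preimage (Subtype.val_injective.injOn)).toFinset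
    have hT : ∀ v, d' v < N → v ∈ T := fun v hv => by
      simp only [T, Set.Finite.mem_toFinset, Set.mem_preimage]
      exact le_of_lt hv
    have h1 := D.cg_fib (hE n) N (Sf ∪ T.map ⟨Subtype.val, Subtype.val_injective⟩) (fun v hv => by
      by_cases hvS : v ∈ Sf
      · exact Finset.mem_union_left _ hvS
      · refine Finset.mem_union_right _ (Finset.mem_map.mpr ⟨⟨v, hvS⟩, hT _ hv, rfl⟩))
    have hdisj : Disjoint Sf (T.map ⟨Subtype.val, Subtype.val_injective⟩) := by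
      rw [Finset.disjoint_left]
      intro v hv hv'
      obtain ⟨w, _, rfl⟩ := Finset.mem_map.mp hv'
      exact w.2 hv
    rw [Finset.prod_union hdisj, ← hAcoe, Finset.prod_map] at h1
    refine Cg.trans ?_ h1
    refine (Cg.refl N _).mul ?_
    have h3 : (∏ v ∈ T, (1 - X ^ d' v : ℤ⟦X⟧)) ^ (p ^ n) = ∏ x ∈ T,
        (1 - X ^ (D.f n ((⟨Subtype.val, Subtype.val_injective⟩ : {v // v ∉ Sf} ↪ V) x) *
          D.d ((⟨Subtype.val, Subtype.val_injective⟩ : {v // v ∉ Sf} ↪ V) x)) : ℤ⟦X⟧) ^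
          D.g n ((⟨Subtype.val, Subtype.val_injective⟩ : {v // v ∉ Sf} ↪ V) x) := by
      rw [← Finset.prod_pow]
      refine Finset.prod_congr rfl fun v _ => ?_
      have hv := hSf v.1 v.2
      show _ = (1 - X ^ (D.f n v.1 * D.d v.1) : ℤ⟦X⟧) ^ D.g n v.1
      rw [D.f_one_of_g n v.1 (hv n), one_mul, hv n]
    rw [← h3]
    have h4 : Cg N D' (∏ v ∈ T, (1 - X ^ d' v : ℤ⟦X⟧)) := (hcg' N T hT).symm
    have h5 := Cg.prod (Finset.range (p ^ n)) (fun i _ => h4)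
    simpa using h5
  -- polynomial identity
  set U : Polynomial ℤ := P 0 * A 0 with hU
  set F : Polynomial ℤ := (1 - Polynomial.X) * (1 - Polynomial.C (q : ℤ) * Polynomial.X) with hF
  have hFcoe : (F : ℤ⟦X⟧) = (1 - X) * (1 - C (q : ℤ) * X) := by
    rw [hF, Polynomial.coe_mul, Polynomial.coe_sub, Polynomial.coe_sub, Polynomial.coe_one,
      Polynomial.coe_mul, Polynomial.coe_C, Polynomial.coe_X]
  have hUD : (U : ℤ⟦X⟧) * D' = F := by
    rw [hFcoe, ← hPE 0, hE0, hU, Polynomial.coe_mul]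
    ring
  have h1D : (P 1 : ℤ⟦X⟧) * (A 1 : ℤ⟦X⟧) * D' ^ p = F := by
    rw [hFcoe, ← hPE 1, hEn 1, pow_one]
    ring
  have hF0 : (F : ℤ⟦X⟧) ≠ 0 := by
    rw [hFcoe]
    intro h
    have := congrArg constantCoeff h
    simp at this
  obtain ⟨p', hp'⟩ : ∃ p', p = p' + 2 := ⟨p - 2, by have := D.two_le; omega⟩
  have hdvd : F ∣ U ^ p := by
    clear_value U F A
    refine ⟨P 1 * A 1 * F ^ p', ?_⟩
    apply Polynomial.coe_injective ℤ
    simp only [Polynomial.coe_pow, Polynomial.coe_mul]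
    have h6 : (F : ℤ⟦X⟧) * (U : ℤ⟦X⟧) ^ p = F * (F * ((P 1 : ℤ⟦X⟧) * (A 1 : ℤ⟦X⟧) * F ^ p')) := by
      calc (F : ℤ⟦X⟧) * (U : ℤ⟦X⟧) ^ p = ((P 1 : ℤ⟦X⟧) * (A 1 : ℤ⟦X⟧)) * (U * D') ^ p := by
            rw [← h1D]; ring
        _ = F * (F * ((P 1 : ℤ⟦X⟧) * (A 1 : ℤ⟦X⟧) * F ^ p')) := by
            rw [hUD, hp']; ring
    exact mul_left_cancel₀ hF0 h6
  obtain ⟨Vp, hVp⟩ := dvd_of_dvd_pow hq hdvd
  -- the inverse of `D'` is a polynomial
  obtain ⟨Z, hZD, -, -, hZ1⟩ := exists_inverse hD'E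
  have hmapF : PowerSeries.map (Int.castRingHom ℚ) (F : ℤ⟦X⟧) =
      ((((1 - Polynomial.X) * (1 - Polynomial.C (q : ℚ) * Polynomial.X) : Polynomial ℚ)) : ℚ⟦X⟧) := by
    rw [← Polynomial.polynomial_map_coe]
    congr 1
    simp [hF]
  have hZV : PowerSeries.map (Int.castRingHom ℚ) Z = (Vp : ℚ⟦X⟧) := by
    have h7 : PowerSeries.map (Int.castRingHom ℚ) (F : ℤ⟦X⟧) * ((Vp : ℚ⟦X⟧) *
        PowerSeries.map (Int.castRingHom ℚ) D') = PowerSeries.map (Int.castRingHom ℚ) (F : ℤ⟦X⟧) := by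
      rw [← mul_assoc]
      nth_rewrite 1 [hmapF]
      rw [← Polynomial.coe_mul, ← hVp, Polynomial.polynomial_map_coe, ← map_mul, hUD]
    have hF0' : PowerSeries.map (Int.castRingHom ℚ) (F : ℤ⟦X⟧) ≠ 0 := by
      intro h
      have := congrArg constantCoeff h
      rw [hFcoe] at this
      simp at this
    have h8 : (Vp : ℚ⟦X⟧) * PowerSeries.map (Int.castRingHom ℚ) D' = 1 := by
      refine mul_left_cancel₀ hF0' ?_
      rw [h7, mul_one]
    have h9 : PowerSeries.map (Int.castRingHom ℚ) Z * PowerSeries.map (Int.castRingHom ℚ) D' = 1 := by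
      rw [← map_mul, hZD, map_one]
    have h10 : PowerSeries.map (Int.castRingHom ℚ) D' ≠ 0 := by
      rintro h
      rw [h, mul_zero] at h9
      exact zero_ne_one h9
    exact mul_right_cancel₀ h10 (by rw [h9, h8])
  obtain ⟨v₀, hv₀⟩ := D.exists_unr
  have hv₀' : v₀ ∉ Sf := by simpa [Sf] using hv₀
  have h11 := hZ1 ⟨v₀, hv₀'⟩ (d' ⟨v₀, hv₀'⟩ * (Vp.natDegree + 1)) (dvd_mul_right _ _)
  have h12 := congrArg (coeff (d' ⟨v₀, hv₀'⟩ * (Vp.natDegree + 1))) hZV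
  rw [coeff_map, Polynomial.coeff_coe, Polynomial.coeff_eq_zero_of_natDegree_lt] at h12
  · have h13 : coeff (d' ⟨v₀, hv₀'⟩ * (Vp.natDegree + 1)) Z = 0 := by simpa using h12
    rw [h13] at h11
    exact absurd h11 (by norm_num)
  · have : 1 ≤ d' ⟨v₀, hv₀'⟩ := hd v₀
    nlinarith

/-- **Main combinatorial theorem.** -/
theorem tendsto_finrank {E : ℕ → ℤ⟦X⟧} (hE : ∀ n, IsEuler (D.deg n) (E n)) {P : ℕ → Polynomial ℤ}
    {q : ℕ} (hq : 2 ≤ q) (hPE : ∀ n, (P n : ℤ⟦X⟧) * E n = (1 - X) * (1 - C (q : ℤ) * X)) :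
    Tendsto (fun n => Module.finrank ℚ ((P n).map (Int.castRingHom ℚ)).SplittingField)
      atTop atTop := by
  have h0 : ∀ n, (P n).coeff 0 = 1 := by
    intro n
    have h1 := congrArg constantCoeff (hPE n)
    rw [map_mul, (hE n).constantCoeff] at h1
    simpa using h1
  rw [tendsto_atTop]
  intro B
  by_contra hcon
  rw [Filter.not_eventually] at hcon
  have hinf : {n | ¬ B ≤ Module.finrank ℚ ((P n).map (Int.castRingHom ℚ)).SplittingField}.Infinite :=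
    Nat.frequently_atTop_iff_infinite.mp hcon
  refine D.not_all_cs hE hq hPE fun v hv => ?_
  refine D.cs_of_bounded hE (by omega) hPE h0 B _ hinf (fun n hn => ?_) v hv
  exact le_of_lt (not_le.mp hn)

end TowerData

end Pool.Agent.Helper2.Zp
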