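import Pool.Agent.Helper2.Zp.Count

/-!
Galois action on places, and splitting in cyclic `p`-extensions.
-/

set_option autoImplicit false

namespace ZpTower

open IsLocalRing IsDedekindDomain

variable {k K L : Type*} [Field k] [Field K] [Field L] [Algebra k K] [Algebra k L] [Algebra K L]
  [IsScalarTower k K L]

/-- The conjugate of a place by an automorphism. -/
def Place.conj (σ : L ≃ₐ[K] L) (w : Place k L) : Place k L where
  ring := w.ring.comap (σ.symm : L →+* L)
  algebraMap_mem a := by
    show σ.symm (algebraMap k L a) ∈ w.ring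
    rw [IsScalarTower.algebraMap_apply k K L, AlgEquiv.commutes,
      ← IsScalarTower.algebraMap_apply k K L]
    exact w.algebraMap_mem a
  isDVR := by
    let := (σ.symm : L →+* L).toAlgebra
    have halg : @Algebra.IsAlgebraic L L _ _ (σ.symm : L →+* L).toAlgebra := by
      refine @Algebra.IsAlgebraic.mk L L _ _ (σ.symm : L →+* L).toAlgebra fun x => ?_
      have hx : x = @algebraMap L L _ _ (σ.symm : L →+* L).toAlgebra (σ x) := by
        show x = σ.symm (σ x)
        simp
      rw [hx]
      exact @isAlgebraic_algebraMap L L _ _ (σ.symm : L →+* L).toAlgebra _ (σ x)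
    exact @dvr_comap L L _ _ (σ.symm : L →+* L).toAlgebra halg w.ring w.isDVR

theorem Place.mem_conj (σ : L ≃ₐ[K] L) (w : Place k L) (x : L) :
    x ∈ (w.conj σ).ring ↔ σ.symm x ∈ w.ring := Iff.rfl

instance : MulAction (L ≃ₐ[K] L) (Place k L) where
  smul σ w := w.conj σ
  one_smul w := by
    apply Place.ext
    ext x
    exact Iff.rfl
  mul_smul σ τ w := by
    apply Place.ext
    ext x
    exact Iff.rfl

theorem Place.mem_smul_ring (σ : L ≃ₐ[K] L) (w : Place k L) (x : L) :
    x ∈ (σ • w).ring ↔ σ.symm x ∈ w.ring := Iff.rfl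

theorem Place.restrict_smul [Algebra.IsAlgebraic K L] (σ : L ≃ₐ[K] L) (w : Place k L) :
    (σ • w).restrict K = w.restrict K := by
  apply Place.ext
  ext x
  rw [Place.mem_restrict_ring, Place.mem_restrict_ring, Place.mem_smul_ring, AlgEquiv.commutes]

section Galois

variable [FiniteDimensional K L] [IsGalois K L] {v : Place k K}

theorem Place.exists_smul_eq {w w' : Place k L} (h : w.restrict K = v) (h' : w'.restrict K = v) :
    ∃ σ : L ≃ₐ[K] L, σ • w = w' := by
  obtain ⟨σ, hσ⟩ := Ideal.exists_smul_eq_of_isGaloisGroup (maximalIdeal v.ring) (primeOf h)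
    (primeOf h') (L ≃ₐ[K] L)
  refine ⟨σ, ?_⟩
  apply Place.ext
  symm
  apply ValuationSubring.eq_of_le_of_ne_top
  · rw [← ring_eq h']
    rintro x ⟨a, s, hs, rfl⟩
    rw [Place.mem_smul_ring, map_mul, map_inv₀]
    have hs' : s ∉ primeOf h' := hs
    have h1 : σ⁻¹ • s ∉ primeOf h := by
      intro hmem
      apply hs'
      rw [← hσ]
      exact Ideal.mem_pointwise_smul_iff_inv_smul_mem.mpr hmem
    have e1 : ((σ⁻¹ • s : integralClosure v.ring L) : L) = σ.symm (s : L) := rfl
    have e2 : ((σ⁻¹ • a : integralClosure v.ring L) : L) = σ.symm (a : L) := rfl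
    have h2 : IsUnit (toRing h (σ⁻¹ • s)) := by
      by_contra hu
      exact h1 ((mem_maximalIdeal _).mpr hu)
    obtain ⟨u, hu⟩ := h2.exists_right_inv
    have h3 : σ.symm (s : L) * (u : L) = 1 := by
      rw [← e1]
      exact congrArg Subtype.val hu
    have h4 : (σ.symm (s : L))⁻¹ = u := by
      rw [eq_comm]
      exact eq_inv_of_mul_eq_one_right h3
    have h5 : σ.symm (algebraMap (integralClosure v.ring L) L a) ∈ w.ring := by
      show σ.symm (a : L) ∈ w.ring
      rw [← e2]
      exact (toRing h (σ⁻¹ • a)).2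
    have h6 : (σ.symm (algebraMap (integralClosure v.ring L) L s))⁻¹ ∈ w.ring := by
      show (σ.symm (s : L))⁻¹ ∈ w.ring
      rw [h4]
      exact u.2
    exact w.ring.mul_mem _ _ h5 h6
  · exact ne_top_of_dvr _

theorem orbit_eq_over {w : Place k L} (h : w.restrict K = v) :
    MulAction.orbit (L ≃ₐ[K] L) w = v.over L := by
  ext w'
  constructor
  · rintro ⟨σ, rfl⟩
    show (σ • w).restrict K = v
    rw [Place.restrict_smul]
    exact h
  · intro hw'
    obtain ⟨σ, hσ⟩ := Place.exists_smul_eq h hw'
    exact ⟨σ, hσ⟩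

/-- The residue degree of the places above `v`. -/
noncomputable def resDeg (L : Type*) [Field L] [Algebra k L] [Algebra K L] [IsScalarTower k K L]
    (v : Place k K) : ℕ :=
  (maximalIdeal v.ring).inertiaDegIn (integralClosure v.ring L)

theorem degree_eq_resDeg {w : Place k L} (h : w.restrict K = v) :
    w.degree = resDeg L v * v.degree := by
  rw [degree_eq h, mul_comm]
  congr 1
  exact (Ideal.inertiaDegIn_eq_inertiaDeg (maximalIdeal v.ring) (primeOf h) (L ≃ₐ[K] L)).symm

theorem resDeg_pos (v : Place k K) : 0 < resDeg L v :=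
  Nat.pos_of_ne_zero (Ideal.inertiaDegIn_ne_zero (A := v.ring) (B := integralClosure v.ring L)
    (L ≃ₐ[K] L))

theorem over_ncard_pos (v : Place k K) : 0 < (v.over L).ncard :=
  (Set.ncard_pos (over_finite v)).mpr (over_nonempty v)

theorem resDeg_mul_ncard_le (v : Place k K) :
    resDeg L v * (v.over L).ncard ≤ Module.finrank K L := by
  obtain ⟨w, h⟩ := over_nonempty (L := L) v
  rw [← fundamental_identity h]
  have h1 : resDeg L v = (primeOf h).inertiaDeg v.ring :=
    Ideal.inertiaDegIn_eq_inertiaDeg (maximalIdeal v.ring) (primeOf h) (L ≃ₐ[K] L)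
  rw [h1, mul_comm]
  refine Nat.mul_le_mul_left _ ?_
  exact Nat.le_mul_of_pos_left _ (Ideal.ramificationIdx_pos _ _)

theorem resDeg_mul_ncard_eq {w : Place k L} (h : w.restrict K = v) (hw : w.IsUnramified K) :
    resDeg L v * (v.over L).ncard = Module.finrank K L := by
  rw [← fundamental_identity h, ramificationIdx_eq_one h hw, one_mul, mul_comm]
  congr 1
  exact Ideal.inertiaDegIn_eq_inertiaDeg (maximalIdeal v.ring) (primeOf h) (L ≃ₐ[K] L)

end Galois

section Tower

variable {M N : Type*} [Field M] [Field N] [Algebra k M] [Algebra k N] [Algebra K M] [Algebra K N]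
  [Algebra M N] [IsScalarTower k K M] [IsScalarTower k K N] [IsScalarTower k M N]
  [IsScalarTower K M N] [FiniteDimensional K M] [FiniteDimensional K N] [FiniteDimensional M N]
  [IsGalois K M] [IsGalois K N] [IsGalois M N] (v : Place k K)

theorem restrict_restrict (w : Place k N) : (w.restrict M).restrict K = w.restrict K := by
  apply Place.ext
  ext x
  rw [Place.mem_restrict_ring, Place.mem_restrict_ring, Place.mem_restrict_ring,
    ← IsScalarTower.algebraMap_apply]

theorem ncard_over_le :
    (v.over N).ncard ≤ Module.finrank M N * (v.over M).ncard := by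
  classical
  have hfin : (v.over N).Finite := over_finite v
  have h1 := Finset.card_le_mul_card_image (f := Place.restrict (k := k) (L := N) M)
    hfin.toFinset (Module.finrank M N) (fun u _ => by
      have h2 : (({a ∈ hfin.toFinset | Place.restrict M a = u} : Finset (Place k N)) : Set (Place k N))
          ⊆ u.over N := by
        intro a ha
        simp only [Finset.coe_filter] at ha
        exact ha.2
      have h3 := Set.ncard_le_ncard h2 (over_finite u)
      rw [Set.ncard_coe_finset] at h3
      refine h3.trans ?_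
      refine le_trans ?_ (resDeg_mul_ncard_le (L := N) u)
      exact Nat.le_mul_of_pos_left _ (resDeg_pos u))
  rw [Set.ncard_eq_toFinset_card _ hfin]
  refine h1.trans (Nat.mul_le_mul_left _ ?_)
  rw [Set.ncard_eq_toFinset_card _ (over_finite (L := M) v)]
  apply Finset.card_le_card
  intro u hu
  obtain ⟨w, hw, rfl⟩ := Finset.mem_image.mp hu
  rw [Set.Finite.mem_toFinset] at hw ⊢
  show (w.restrict M).restrict K = v
  rw [restrict_restrict]
  exact hw

theorem ncard_over_dichotomy {p m : ℕ} [hp : Fact p.Prime] [IsCyclic (N ≃ₐ[K] N)]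
    (hN : Module.finrank K N = p ^ (m + 1)) (hMN : Module.finrank M N = p) :
    (v.over N).ncard = p ^ (m + 1) ∨ (v.over N).ncard = (v.over M).ncard := by
  classical
  by_cases hsplit : (v.over N).ncard = p ^ (m + 1)
  · exact Or.inl hsplit
  refine Or.inr ?_
  have hcardG : Nat.card (N ≃ₐ[K] N) = p ^ (m + 1) := by
    rw [IsGalois.card_aut_eq_finrank, hN]
  -- the subgroup fixing M
  let φ : (N ≃ₐ[M] N) →* (N ≃ₐ[K] N) := AlgEquiv.restrictScalarsHom K
  have hφinj : Function.Injective φ := by
    intro a b hab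
    ext x
    exact DFunLike.congr_fun hab x
  have hcardH : Nat.card φ.range = p := by
    rw [← hMN, ← IsGalois.card_aut_eq_finrank M N]
    exact (Nat.card_congr (MonoidHom.ofInjective hφinj).toEquiv).symm
  -- stabilizers contain H
  have key : ∀ w ∈ v.over N, φ.range ≤ MulAction.stabilizer (N ≃ₐ[K] N) w := by
    intro w hw
    set D := MulAction.stabilizer (N ≃ₐ[K] N) w with hD
    have h1 : Nat.card D * (v.over N).ncard = p ^ (m + 1) := by
      rw [← hcardG, ← Subgroup.card_mul_index D, hD, MulAction.index_stabilizer, orbit_eq_over hw]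
    have hcardD : Nat.card D ≠ 1 := by
      intro h2
      rw [h2, one_mul] at h1
      exact hsplit h1
    have hpD : p ∣ Nat.card D := by
      have h3 : Nat.card D ∣ p ^ (m + 1) := ⟨_, h1.symm⟩
      obtain ⟨j, _, hj⟩ := (Nat.dvd_prime_pow hp.out).mp h3
      rw [hj]
      refine dvd_pow_self p ?_
      rintro rfl
      exact hcardD (by rw [hj, pow_zero])
    obtain ⟨x, hx⟩ := exists_prime_orderOf_dvd_card' (G := D) p hpD
    have hxo : orderOf (x : N ≃ₐ[K] N) = p := by rw [Subgroup.orderOf_coe, hx]
    let : Fintype (N ≃ₐ[K] N) := Fintype.ofFinite _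
    -- the set of solutions of a ^ p = 1
    have hle := IsCyclic.card_pow_eq_one_le (α := N ≃ₐ[K] N) hp.out.pos
    set S : Finset (N ≃ₐ[K] N) := {a | a ^ p = 1} with hS
    have hHS : (φ.range : Set (N ≃ₐ[K] N)).toFinset ⊆ S := by
      intro a ha
      rw [Set.mem_toFinset] at ha
      have h4 : (⟨a, ha⟩ : φ.range) ^ p = 1 := by
        rw [← hcardH]
        exact pow_card_eq_one'
      have h5 : a ^ p = 1 := congrArg Subtype.val h4
      simp [hS, h5]
    have hcard1 : (φ.range : Set (N ≃ₐ[K] N)).toFinset.card = p := by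
      rw [← hcardH, ← Set.ncard_eq_toFinset_card']
      rfl
    have hHeq : (φ.range : Set (N ≃ₐ[K] N)).toFinset = S :=
      Finset.eq_of_subset_of_card_le hHS (by rw [hcard1]; exact hle)
    have hZS : (Subgroup.zpowers (x : N ≃ₐ[K] N) : Set (N ≃ₐ[K] N)).toFinset ⊆ S := by
      intro a ha
      rw [Set.mem_toFinset] at ha
      obtain ⟨j, rfl⟩ := ha
      have : ((x : N ≃ₐ[K] N) ^ j) ^ p = 1 := by
        rw [← zpow_natCast, ← zpow_mul, mul_comm, zpow_mul, zpow_natCast, ← hxo, pow_orderOf_eq_one,
          one_zpow]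
      simp [hS, this]
    have hcard2 : (Subgroup.zpowers (x : N ≃ₐ[K] N) : Set (N ≃ₐ[K] N)).toFinset.card = p := by
      rw [← hxo, ← Nat.card_zpowers, ← Set.ncard_eq_toFinset_card']
      rfl
    have hZeq : (Subgroup.zpowers (x : N ≃ₐ[K] N) : Set (N ≃ₐ[K] N)).toFinset = S :=
      Finset.eq_of_subset_of_card_le hZS (by rw [hcard2]; exact hle)
    intro a ha
    have h6 : a ∈ (Subgroup.zpowers (x : N ≃ₐ[K] N) : Set (N ≃ₐ[K] N)).toFinset := by
      rw [hZeq, ← hHeq, Set.mem_toFinset]
      exact ha
    rw [Set.mem_toFinset] at h6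
    have h7 : Subgroup.zpowers (x : N ≃ₐ[K] N) ≤ D := by
      rw [Subgroup.zpowers_le]
      exact x.2
    exact h7 h6
  refine Set.ncard_congr (fun w _ => w.restrict M) ?_ ?_ ?_
  · intro w hw
    show (w.restrict M).restrict K = v
    rw [restrict_restrict]
    exact hw
  · intro w w' hw hw' hww
    obtain ⟨τ, hτ⟩ := Place.exists_smul_eq (K := M) (v := w.restrict M) rfl hww.symm
    have h1 : φ τ ∈ MulAction.stabilizer (N ≃ₐ[K] N) w := key w hw ⟨τ, rfl⟩
    have h2 : φ τ • w = w := h1
    have h3 : φ τ • w = τ • w := by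
      apply Place.ext
      ext x
      exact Iff.rfl
    rw [← hτ, ← h3, h2]
  · intro u hu
    obtain ⟨w, hw⟩ := over_nonempty (L := N) u
    refine ⟨w, ?_, hw⟩
    show w.restrict K = v
    rw [← restrict_restrict (M := M), hw]
    exact hu

theorem resDeg_mono (hv : 0 < v.degree) : resDeg M v ≤ resDeg N v := by
  obtain ⟨w, hw⟩ := over_nonempty (L := N) v
  have h1 := degree_eq_resDeg hw
  have h2 : (w.restrict M).restrict K = v := by
    rw [restrict_restrict]
    exact hw
  have h3 := degree_eq_resDeg h2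
  have h4 := degree_eq_resDeg (K := M) (w := w) rfl
  have h5 : (w.restrict M).degree ≤ w.degree := by
    rw [h4]
    exact Nat.le_mul_of_pos_left _ (resDeg_pos _)
  rw [h1, h3] at h5
  exact Nat.le_of_mul_le_mul_right h5 hv

end Tower

end ZpTower
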