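import Pool.Agent.Helper2.Zp.Places

/-!
Function fields in one variable over a perfect field have infinitely many places.
-/

set_option autoImplicit false

namespace ZpTower

open IsLocalRing IsDedekindDomain IntermediateField

open scoped Polynomial

variable {k K : Type*} [Field k] [Field K] [Algebra k K]

theorem finiteDimensional_of_essFiniteType {F E : Type*} [Field F] [Field E] [Algebra F E]
    [Algebra.EssFiniteType F E] [Algebra.IsAlgebraic F E] : FiniteDimensional F E := by
  obtain ⟨t, ht⟩ := IntermediateField.fg_top F E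
  have h1 : FiniteDimensional F (IntermediateField.adjoin F (t : Set E)) :=
    IntermediateField.finiteDimensional_adjoin (fun x _ => (Algebra.IsAlgebraic.isAlgebraic x).isIntegral)
  rw [ht] at h1
  exact LinearEquiv.finiteDimensional (IntermediateField.topEquiv (F := F) (E := E)).toLinearEquiv

theorem exists_separating [PerfectField k]
    (h : ∃ x : K, Transcendental k x ∧ FiniteDimensional k⟮x⟯ K) :
    ∃ x : K, Transcendental k x ∧ FiniteDimensional k⟮x⟯ K ∧ Algebra.IsSeparable k⟮x⟯ K := by
  obtain ⟨x₀, hx₀, hfin⟩ := h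
  have h1 : Algebra.EssFiniteType k k⟮x₀⟯ :=
    IntermediateField.essFiniteType_iff.mpr ⟨{x₀}, by simp⟩
  have h2 : Algebra.EssFiniteType k K := Algebra.EssFiniteType.comp k k⟮x₀⟯ K
  obtain ⟨s, hs, hsep⟩ := exists_isTranscendenceBasis_and_isSeparable_of_perfectField k K
  have h3 : IsTranscendenceBasis k (fun _ : Unit => x₀) := by
    have hai : AlgebraicIndependent k (fun _ : Unit => x₀) := by
      rw [algebraicIndependent_unique_type_iff]
      exact hx₀
    refine isTranscendenceBasis_iff_algebraicIndependent_isAlgebraic.mpr ⟨hai, ?_⟩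
    have e1 : Set.range (fun _ : Unit => x₀) = {x₀} := by
      ext y; simp [eq_comm]
    rw [e1, ← IntermediateField.isAlgebraic_adjoin_iff_top]
    infer_instance
  have h4 := hs.lift_cardinalMk_eq_trdeg
  have h5 := h3.lift_cardinalMk_eq_trdeg
  have h6 : s.card = 1 := by
    have h7 : Cardinal.mk s = 1 := by
      have h8 : Algebra.trdeg k K = 1 := by
        have : Cardinal.lift.{0} (Algebra.trdeg k K) = 1 := by
          rw [← h5]; simp
        simpa using this
      rw [h8] at h4
      simpa using h4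
    simpa using h7
  obtain ⟨x, rfl⟩ := Finset.card_eq_one.mp h6
  have h9 : ((({x} : Finset K) : Set K)) = {x} := by simp
  have hxt : Transcendental k x := by
    have := hs.1.transcendental ⟨x, by simp⟩
    simpa using this
  have hsep' : Algebra.IsSeparable k⟮x⟯ K := by
    rw [h9] at hsep
    exact hsep
  have h10 : Algebra.EssFiniteType k⟮x⟯ K := Algebra.EssFiniteType.of_comp k k⟮x⟯ K
  have h11 : Algebra.IsAlgebraic k⟮x⟯ K := inferInstance
  exact ⟨x, hxt, finiteDimensional_of_essFiniteType, hsep'⟩

theorem aeval_mem (v : Place k K) {x : K} (hx : x ∈ v.ring) (a : k[X]) :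
    Polynomial.aeval x a ∈ v.ring := by
  have h1 := (Polynomial.aeval (⟨x, hx⟩ : v.ring) a).2
  have h2 : ((Polynomial.aeval (⟨x, hx⟩ : v.ring) a : v.ring) : K) = Polynomial.aeval x a := by
    have hst : IsScalarTower k v.ring K := IsScalarTower.of_algebraMap_eq fun _ => rfl
    have := Polynomial.aeval_algebraMap_apply K (⟨x, hx⟩ : v.ring) a
    exact this.symm
  rw [← h2]
  exact h1

theorem exists_aeval_nonunit (v : Place k K) {x : K} (hx : x ∈ v.ring)
    [Algebra.IsAlgebraic k⟮x⟯ K] : ∃ a : k[X], a ≠ 0 ∧ Polynomial.aeval x a ∈ v.ring.nonunits := by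
  by_contra hcon
  push Not at hcon
  apply ne_top_of_dvr v.ring
  refine eq_top_of_base_le (K := k⟮x⟯) v.ring fun y => ?_
  obtain ⟨r, s, hrs⟩ := IntermediateField.mem_adjoin_simple_iff k (y : K) |>.mp y.2
  show (y : K) ∈ v.ring
  rw [hrs, div_eq_mul_inv]
  refine v.ring.mul_mem _ _ (aeval_mem v hx r) ?_
  by_cases hs : s = 0
  · rw [hs, map_zero, inv_zero]
    exact v.ring.zero_mem
  · have h1 := hcon s hs
    rw [ValuationSubring.mem_nonunits_iff_or, not_or, not_not] at h1
    exact h1.2

section PlaceOfPrime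

variable {B : Type*} [CommRing B] [IsDedekindDomain B] [Algebra B K] [IsFractionRing B K]

theorem isLocalization_valuationSubringAtPrime (P : HeightOneSpectrum B) :
    IsLocalization.AtPrime (HeightOneSpectrum.valuationSubringAtPrime K P) P.asIdeal :=
  inferInstanceAs (IsLocalization P.asIdeal.primeCompl
      (HeightOneSpectrum.valuationSubringAtPrime K P))

/-- The place attached to a nonzero prime of a Dedekind domain `B ⊇ k` with fraction field `K`. -/
noncomputable def placeOfPrime (hk : ∀ a : k, ∃ b : B, algebraMap B K b = algebraMap k K a)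
    (P : HeightOneSpectrum B) : Place k K where
  ring := HeightOneSpectrum.valuationSubringAtPrime K P
  algebraMap_mem a := by
    obtain ⟨b, hb⟩ := hk a
    rw [← hb]
    exact (algebraMap B (HeightOneSpectrum.valuationSubringAtPrime K P) b).2
  isDVR :=
    IsLocalization.AtPrime.isDiscreteValuationRing_of_dedekind_domain B P.ne_bot _

variable (hk : ∀ a : k, ∃ b : B, algebraMap B K b = algebraMap k K a) (P : HeightOneSpectrum B)

theorem mem_placeOfPrime (b : B) : algebraMap B K b ∈ (placeOfPrime hk P).ring :=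
  (algebraMap B (HeightOneSpectrum.valuationSubringAtPrime K P) b).2

theorem mem_nonunits_placeOfPrime (b : B) :
    algebraMap B K b ∈ (placeOfPrime hk P).ring.nonunits ↔ b ∈ P.asIdeal := by
  have := isLocalization_valuationSubringAtPrime (K := K) P
  rw [← IsLocalization.AtPrime.to_map_mem_maximal_iff
    (HeightOneSpectrum.valuationSubringAtPrime K P) P.asIdeal b]
  rw [← ValuationSubring.coe_mem_nonunits_iff]
  rfl

end PlaceOfPrime

open scoped algebraAdjoinAdjoin in
theorem exists_place_above {x : K} (hx : Transcendental k x) [FiniteDimensional k⟮x⟯ K]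
    [Algebra.IsSeparable k⟮x⟯ K] (g : k[X]) (hg : ¬ IsUnit g) (hg0 : g ≠ 0) :
    ∃ w : Place k K, x ∈ w.ring ∧ Polynomial.aeval x g ∈ w.ring.nonunits := by
  let R₀ := Algebra.adjoin k ({x} : Set K)
  let e : k[X] ≃ₐ[k] R₀ := Polynomial.algEquivOfTranscendental k x hx
  have hpid : IsPrincipalIdealRing R₀ := IsPrincipalIdealRing.of_surjective (e : k[X] →+* R₀) e.surjective
  have hded : IsDedekindDomain R₀ := inferInstance
  have he : ∀ a : k[X], ((e a : R₀) : K) = Polynomial.aeval x a := fun a => by
    exact (Polynomial.aeval_algHom_apply R₀.val ⟨x, Algebra.self_mem_adjoin_singleton k x⟩ a).symm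
  let B := integralClosure R₀ K
  have hB : IsDedekindDomain B := integralClosure.isDedekindDomain R₀ k⟮x⟯ K
  have hBK : IsFractionRing B K := integralClosure.isFractionRing_of_finite_extension k⟮x⟯ K
  have hnu : e g ∈ nonunits R₀ := by
    rw [mem_nonunits_iff]
    intro h
    apply hg
    have := h.map (e.symm : R₀ →* k[X])
    simpa using this
  obtain ⟨𝔭, h𝔭, hg𝔭⟩ := exists_max_ideal_of_mem_nonunits hnu
  have hinj : Function.Injective (algebraMap R₀ B) := by
    intro a b hab
    have h1 : algebraMap R₀ K a = algebraMap R₀ K b := by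
      rw [IsScalarTower.algebraMap_apply R₀ B K, hab, ← IsScalarTower.algebraMap_apply R₀ B K]
    exact Subtype.ext h1
  have hfaith : FaithfulSMul R₀ B := (faithfulSMul_iff_algebraMap_injective _ _).mpr hinj
  have hne : Nonempty (𝔭.primesOver B) := inferInstance
  obtain ⟨⟨P, hPp, hPo⟩⟩ := hne
  have h𝔭0 : 𝔭 ≠ ⊥ := by
    rintro rfl
    rw [Ideal.mem_bot] at hg𝔭
    exact hg0 (e.injective (by rw [hg𝔭, map_zero]))
  have hP0 : P ≠ ⊥ := Ideal.ne_bot_of_liesOver_of_ne_bot h𝔭0 P
  have hk : ∀ a : k, ∃ b : B, algebraMap B K b = algebraMap k K a := fun a =>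
    ⟨algebraMap R₀ B (algebraMap k R₀ a), rfl⟩
  refine ⟨placeOfPrime hk ⟨P, hPp, hP0⟩, ?_, ?_⟩
  · exact mem_placeOfPrime hk ⟨P, hPp, hP0⟩ (algebraMap R₀ B ⟨x, Algebra.subset_adjoin rfl⟩)
  · have h1 : algebraMap R₀ B (e g) ∈ P := by
      have h2 := Ideal.over_def P 𝔭
      rw [h2, Ideal.under_def, Ideal.mem_comap] at hg𝔭
      exact hg𝔭
    have h3 := (mem_nonunits_placeOfPrime hk ⟨P, hPp, hP0⟩ (algebraMap R₀ B (e g))).mpr h1
    have h5 : algebraMap B K (algebraMap R₀ B (e g)) = Polynomial.aeval x g := by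
      rw [← he]
      rfl
    rw [h5] at h3
    exact h3

/-- There are infinitely many places. -/
theorem exists_place_notMem [PerfectField k]
    (h : ∃ x : K, Transcendental k x ∧ FiniteDimensional k⟮x⟯ K) (T : Finset (Place k K)) :
    ∃ w : Place k K, w ∉ T := by
  classical
  obtain ⟨x, hx, hfin, hsep⟩ := exists_separating h
  have hch : ∀ v : Place k K, ∃ a : k[X], a ≠ 0 ∧ (x ∈ v.ring → Polynomial.aeval x a ∈ v.ring.nonunits) := by
    intro v
    by_cases hxv : x ∈ v.ring
    · obtain ⟨a, ha, hav⟩ := exists_aeval_nonunit v hxv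
      exact ⟨a, ha, fun _ => hav⟩
    · exact ⟨1, one_ne_zero, fun hh => absurd hh hxv⟩
  choose a ha hav using hch
  set f : k[X] := Polynomial.X * ∏ v ∈ T, a v with hf
  have hprod : ∏ v ∈ T, a v ≠ 0 := Finset.prod_ne_zero_iff.mpr fun v _ => ha v
  have hdeg : 0 < f.natDegree := by
    rw [hf, Polynomial.natDegree_X_mul hprod]
    exact Nat.succ_pos _
  set g : k[X] := 1 + f with hg
  have hgdeg : 0 < g.natDegree := by
    rw [hg, Polynomial.natDegree_add_eq_right_of_natDegree_lt (by rw [Polynomial.natDegree_one]; exact hdeg)]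
    exact hdeg
  have hgu : ¬ IsUnit g := by
    intro hu
    have := Polynomial.natDegree_eq_zero_of_isUnit hu
    omega
  have hg0 : g ≠ 0 := by
    rintro h0
    rw [h0] at hgdeg
    simp at hgdeg
  obtain ⟨w, hxw, hgw⟩ := exists_place_above hx g hgu hg0
  refine ⟨w, fun hwT => ?_⟩
  have h1 : Polynomial.aeval x f ∈ w.ring.nonunits := by
    rw [hf, ← Finset.mul_prod_erase T _ hwT, map_mul, map_mul]
    rw [ValuationSubring.mem_nonunits_iff, map_mul, map_mul]
    have e1 : w.ring.valuation (Polynomial.aeval x (Polynomial.X : k[X])) ≤ 1 := by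
      rw [Polynomial.aeval_X]
      exact (w.ring.valuation_le_one_iff _).mpr hxw
    have e2 : w.ring.valuation (Polynomial.aeval x (a w)) < 1 := hav w hxw
    have e3 : w.ring.valuation (Polynomial.aeval x (∏ v ∈ T.erase w, a v)) ≤ 1 :=
      (w.ring.valuation_le_one_iff _).mpr (aeval_mem w hxw _)
    calc w.ring.valuation (Polynomial.aeval x (Polynomial.X : k[X])) *
          (w.ring.valuation (Polynomial.aeval x (a w)) *
            w.ring.valuation (Polynomial.aeval x (∏ v ∈ T.erase w, a v)))
        ≤ 1 * (w.ring.valuation (Polynomial.aeval x (a w)) * 1) :=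
          mul_le_mul' e1 (mul_le_mul' le_rfl e3)
      _ < 1 := by rw [one_mul, mul_one]; exact e2
  have h2 : (1 : K) ∈ w.ring.nonunits := by
    have h3 : (1 : K) = Polynomial.aeval x g - Polynomial.aeval x f := by
      rw [hg, map_add, map_one]
      ring
    rw [h3]
    exact sub_mem hgw h1
  rw [ValuationSubring.mem_nonunits_iff, map_one] at h2
  exact lt_irrefl _ h2

end ZpTower
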