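import Pool.Agent.Helper2.Zp.Galois
import Pool.Agent.Helper2.Zp.Infinite
import Pool.Agent.Helper2.Zp.Final

/-!
Assembly of the main theorem.
-/

set_option autoImplicit false

open Filter Topology
open scoped PowerSeries.WithPiTopology

namespace ZpTower

open IsLocalRing IsDedekindDomain Pool.Agent.Helper2.Zp

variable {p : ℕ} {k K Ω : Type*} [Field k] [Field K] [Field Ω] [Algebra k K]
    [Algebra k Ω] [Algebra K Ω] [IsScalarTower k K Ω] {X : ℕ → IntermediateField K Ω}

theorem liesOver_iff {L : Type*} [Field L] [Algebra k L] [Algebra K L] [IsScalarTower k K L]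
    [Algebra.IsAlgebraic K L] (w : Place k L) (v : Place k K) :
    w.LiesOver v ↔ w.restrict K = v :=
  ⟨fun h => Place.ext h, fun h => congrArg Place.ring h⟩

section Step

variable {M N : IntermediateField K Ω} (hMN : M ≤ N)

/-- Facts about one step of the tower. -/
theorem step_facts [Fact p.Prime] [FiniteDimensional K M] [FiniteDimensional K N]
    [IsGalois K M] [IsGalois K N] [IsCyclic (N ≃ₐ[K] N)] {n : ℕ}
    (hM : Module.finrank K M = p ^ n) (hN : Module.finrank K N = p ^ (n + 1)) (v : Place k K)
    (hv : 0 < v.degree) (hMN : M ≤ N) :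
    resDeg M v ≤ resDeg N v ∧ (v.over N).ncard ≤ p * (v.over M).ncard ∧
      ((v.over N).ncard = p ^ (n + 1) ∨ (v.over N).ncard = (v.over M).ncard) := by
  let : Algebra M N := (IntermediateField.inclusion hMN).toRingHom.toAlgebra
  have : IsScalarTower K M N := IsScalarTower.of_algebraMap_eq fun x => rfl
  have : IsScalarTower k M N := IsScalarTower.of_algebraMap_eq fun x => rfl
  have : FiniteDimensional M N := FiniteDimensional.right K M N
  have : IsGalois M N := IsGalois.tower_top_of_isGalois K M N
  have hfin : Module.finrank M N = p := by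
    have h1 := Module.finrank_mul_finrank K M N
    rw [hM, hN, pow_succ] at h1
    exact Nat.eq_of_mul_eq_mul_left (pow_pos (Fact.out : p.Prime).pos n) h1
  refine ⟨resDeg_mono v hv, ?_, ?_⟩
  · have := ncard_over_le (M := M) (N := N) v
    rwa [hfin] at this
  · exact ncard_over_dichotomy v hN hfin

end Step

/-- The main theorem. -/
theorem main [hp : Fact p.Prime] [Finite k] (hX : IsZpTower p k K Ω X) (P : ℕ → Polynomial ℤ)
    (hP : ∀ n, IsZetaNumerator k (X n) (P n)) :
    Tendsto (fun n => Module.finrank ℚ ((P n).map (Int.castRingHom ℚ)).SplittingField)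
      atTop atTop := by
  have hfd : ∀ n, FiniteDimensional K (X n) := fun n =>
    FiniteDimensional.of_finrank_pos (by rw [hX.finrank_eq]; exact pow_pos hp.out.pos n)
  have hgal : ∀ n, IsGalois K (X n) := hX.isGalois
  have hcyc : ∀ n, IsCyclic (X n ≃ₐ[K] X n) := hX.isCyclic
  choose E hE hPE using hP
  have hE0 : ∀ n, E n ≠ 0 := fun n => ne_zero_of_mul (hPE n)
  have hEul : ∀ n, IsEuler (fun w : Place k (X n) => w.degree) (E n) := fun n =>
    isEuler_of_hasProd (hE n) (hE0 n)
  have hfin0 : Module.finrank K (X 0) = 1 := by rw [hX.finrank_eq, pow_zero]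
  have hdpos : ∀ v : Place k K, 0 < v.degree := by
    intro v
    obtain ⟨w, hw⟩ := over_nonempty (L := X 0) v
    have h1 := (hEul 0).pos w
    rw [degree_eq_resDeg hw] at h1
    exact Nat.pos_of_mul_pos_left h1
  have hone : ∀ v : Place k K, resDeg (X 0) v = 1 ∧ (v.over (X 0)).ncard = 1 := by
    intro v
    have h1 := resDeg_mul_ncard_le (L := X 0) v
    rw [hfin0] at h1
    have h2 := resDeg_pos (L := X 0) v
    have h3 := over_ncard_pos (L := X 0) v
    constructor <;> nlinarith
  have hperf : PerfectField k := inferInstance
  -- function field structure on K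
  have hKx : ∃ x : K, Transcendental k x ∧ FiniteDimensional (IntermediateField.adjoin k {x}) K :=
    hX.isFunctionField_base.exists_transcendental
  let D : TowerData (Place k K) (fun n => Place k (X n)) p :=
    { π := fun n w => w.restrict K
      deg := fun n w => w.degree
      d := fun v => v.degree
      f := fun n v => resDeg (X n) v
      g := fun n v => (v.over (X n)).ncard
      S := {v : Place k K | ∃ n, ∃ w : Place k (X n), w.LiesOver v ∧ ¬ w.IsUnramified K}
      two_le := hp.out.two_le
      card_fib := fun n v => rfl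
      deg_eq := fun n w => degree_eq_resDeg rfl
      f_pos := fun n v => resDeg_pos v
      g_pos := fun n v => over_ncard_pos v
      f_zero := fun v => (hone v).1
      g_zero := fun v => (hone v).2
      fg_le := fun n v => by rw [← hX.finrank_eq n]; exact resDeg_mul_ncard_le v
      f_mono := fun n v =>
        (step_facts (hX.finrank_eq n) (hX.finrank_eq (n + 1)) v (hdpos v) (hX.le_succ n)).1
      g_le := fun n v =>
        (step_facts (hX.finrank_eq n) (hX.finrank_eq (n + 1)) v (hdpos v) (hX.le_succ n)).2.1
      g_split := fun n v =>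
        (step_facts (hX.finrank_eq n) (hX.finrank_eq (n + 1)) v (hdpos v) (hX.le_succ n)).2.2
      S_fin := hX.finite_ramification
      unr := fun v hv n => by
        obtain ⟨w, hw⟩ := over_nonempty (L := X n) v
        rw [← hX.finrank_eq n]
        refine resDeg_mul_ncard_eq hw ?_
        by_contra hcon
        exact hv ⟨n, w, (liesOver_iff w v).mpr hw, hcon⟩
      exists_unr := by
        obtain ⟨v, hv⟩ := exists_place_notMem hKx hX.finite_ramification.toFinset
        exact ⟨v, by simpa using hv⟩ }
  have hq : 2 ≤ Nat.card k := Finite.one_lt_card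
  exact D.tendsto_finrank hEul hq hPE

end ZpTower
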