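import Pool.Agent.Helper2.Zp.EulerProd

/-!
Newton-type identities and root bound for numerators of zeta functions.
-/

set_option autoImplicit false

open PowerSeries Filter Topology
open scoped PowerSeries.WithPiTopology

namespace Pool.Agent.Helper2.Zp

section LogDeriv

variable {R : Type*} [CommRing R]

/-- `L` is the logarithmic derivative `-X A' / A`. -/
def IsLg (A L : R⟦X⟧) : Prop := -(X * d⁄dX R A) = A * L

theorem IsLg.mul {A B L M : R⟦X⟧} (h : IsLg A L) (h' : IsLg B M) : IsLg (A * B) (L + M) := by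
  unfold IsLg at *
  rw [Derivation.leibniz]
  simp only [smul_eq_mul]
  linear_combination B * h + A * h'

theorem IsLg.one : IsLg (1 : R⟦X⟧) 0 := by
  simp [IsLg]

theorem IsLg.prod {κ : Type*} (T : Finset κ) {A L : κ → R⟦X⟧}
    (h : ∀ i ∈ T, IsLg (A i) (L i)) : IsLg (∏ i ∈ T, A i) (∑ i ∈ T, L i) := by
  classical
  induction T using Finset.induction_on with
  | empty => simpa using IsLg.one
  | insert a s ha ih =>
    rw [Finset.prod_insert ha, Finset.sum_insert ha]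
    exact (h a (Finset.mem_insert_self a s)).mul
      (ih fun i hi => h i (Finset.mem_insert_of_mem hi))

theorem IsLg.multiset_prod {κ : Type*} (s : Multiset κ) {A L : κ → R⟦X⟧}
    (h : ∀ i ∈ s, IsLg (A i) (L i)) : IsLg (s.map A).prod (s.map L).sum := by
  induction s using Multiset.induction_on with
  | empty => simpa using IsLg.one
  | cons a s ih =>
    rw [Multiset.map_cons, Multiset.map_cons, Multiset.prod_cons, Multiset.sum_cons]
    exact (h a (Multiset.mem_cons_self a s)).mul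
      (ih fun i hi => h i (Multiset.mem_cons_of_mem hi))

/-- `∑_{k ≥ 1} a^k X^k`. -/
theorem isLg_linear (a : R) :
    IsLg (1 - C a * X : R⟦X⟧) (PowerSeries.mk fun k => if k = 0 then 0 else a ^ k) := by
  unfold IsLg
  have hder : d⁄dX R (1 - C a * X : R⟦X⟧) = - C a := by
    rw [map_sub, Derivation.leibniz]
    simp [PowerSeries.derivative_X]
  rw [hder]
  ext m
  rw [sub_mul, one_mul, map_sub, map_neg, coeff_mk]
  cases m with
  | zero => simp
  | succ m =>
    rw [mul_assoc, coeff_C_mul, coeff_succ_X_mul, coeff_succ_X_mul, coeff_mk]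
    cases m with
    | zero => simp
    | succ m => simp [pow_succ, mul_comm, coeff_C]

theorem isLg_one_sub_X_pow {d : ℕ} (hd : 0 < d) :
    IsLg (1 - X ^ d : R⟦X⟧) (PowerSeries.mk fun k => if k = 0 then 0 else if d ∣ k then (d : R) else 0) := by
  unfold IsLg
  obtain ⟨e, rfl⟩ : ∃ e, d = e + 1 := ⟨d - 1, by omega⟩
  have hder : d⁄dX R (1 - X ^ (e + 1) : R⟦X⟧) = - (((e + 1 : ℕ) : R⟦X⟧) * X ^ e) := by
    rw [map_sub, Derivation.leibniz_pow]
    simp [PowerSeries.derivative_X]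
  rw [hder]
  ext m
  rw [sub_mul, one_mul, map_sub, coeff_mk, coeff_X_pow_mul', coeff_mk]
  have e1 : -(X * -(((e + 1 : ℕ) : R⟦X⟧) * X ^ e)) = C ((e + 1 : ℕ) : R) * X ^ (e + 1) := by
    rw [map_natCast]
    ring
  rw [e1, coeff_C_mul, coeff_X_pow]
  by_cases h0 : m = 0
  · subst h0; simp
  · by_cases h1 : m = e + 1
    · subst h1; simp
    · by_cases h2 : e + 1 ≤ m
      · have h3 : m - (e + 1) ≠ 0 := by omega
        have h4 : e + 1 ∣ m - (e + 1) ↔ e + 1 ∣ m := by
          constructor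
          · intro h
            have := dvd_add h (dvd_refl (e + 1))
            rwa [Nat.sub_add_cancel h2] at this
          · intro h
            exact Nat.dvd_sub h (dvd_refl (e + 1))
        simp [h0, h1, h2, h3, h4]
      · have h5 : ¬ (e + 1 ∣ m) := fun h => h2 (Nat.le_of_dvd (Nat.pos_of_ne_zero h0) h)
        simp [h0, h1, h2, h5]

theorem IsLg.cg {A B L M : R⟦X⟧} (hA : IsLg A L) (hB : IsLg B M) (hu : IsUnit A) {n : ℕ}
    (h : Cg n A B) : Cg n L M := by
  have h1 : (X : R⟦X⟧) ^ n ∣ X * d⁄dX R (A - B) := by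
    obtain ⟨U, hU⟩ := h
    rw [hU, Derivation.leibniz, Derivation.leibniz_pow, PowerSeries.derivative_X]
    simp only [smul_eq_mul, mul_one, nsmul_eq_mul]
    cases n with
    | zero => simp
    | succ n =>
      refine ⟨X * d⁄dX R U + ((n + 1 : ℕ) : R⟦X⟧) * U, ?_⟩
      simp only [Nat.add_sub_cancel]
      ring
  have h2 : A * (L - M) = -(X * d⁄dX R (A - B)) - (A - B) * M := by
    unfold IsLg at hA hB
    rw [map_sub]
    linear_combination -hA + hB
  have h3 : (X : R⟦X⟧) ^ n ∣ A * (L - M) := by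
    rw [h2]
    exact dvd_sub (by rwa [dvd_neg]) (Dvd.dvd.mul_right h M)
  exact (IsUnit.dvd_mul_left hu).mp h3

end LogDeriv

variable {ι : Type*} {d : ι → ℕ} {E : ℤ⟦X⟧}

theorem ne_zero_of_mul {P : Polynomial ℤ} {q : ℕ}
    (hPE : (P : ℤ⟦X⟧) * E = (1 - X) * (1 - C (q : ℤ) * X)) : E ≠ 0 := by
  rintro rfl
  rw [mul_zero] at hPE
  have := congrArg constantCoeff hPE
  simp at this

theorem newton (h : IsEuler d E) {P : Polynomial ℤ} {q : ℕ}
    (hPE : (P : ℤ⟦X⟧) * E = (1 - X) * (1 - C (q : ℤ) * X))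
    (s : Multiset ℂ) (hs : P.map (Int.castRingHom ℂ) = (s.map fun a => 1 - Polynomial.C a * Polynomial.X).prod)
    (k : ℕ) (hk : k ≠ 0) (T : Finset ι) (hT : ∀ i, d i ≤ k → i ∈ T) :
    (s.map fun a => a ^ k).sum + ∑ i ∈ T with d i ∣ k, (d i : ℂ) = 1 + (q : ℂ) ^ k := by
  classical
  have hpos := h.pos
  have h1 : Cg (k + 1) ((P : ℤ⟦X⟧) * ∏ i ∈ T, (1 - X ^ d i : ℤ⟦X⟧))
      ((1 - X) * (1 - C (q : ℤ) * X)) := by
    rw [← hPE]
    exact (Cg.refl _ _).mul (h.cg (k + 1) T fun i hi => hT i (Nat.lt_succ_iff.mp hi))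
  have h2 := h1.map (Int.castRingHom ℂ)
  have hP : PowerSeries.map (Int.castRingHom ℂ) (P : ℤ⟦X⟧) = (s.map fun a => (1 - C a * X : ℂ⟦X⟧)).prod := by
    rw [← Polynomial.polynomial_map_coe, hs]
    rw [← Polynomial.coeToPowerSeries.ringHom_apply, map_multiset_prod, Multiset.map_map]
    congr 1
    refine Multiset.map_congr rfl fun a _ => ?_
    simp
  have hTm : PowerSeries.map (Int.castRingHom ℂ) (∏ i ∈ T, (1 - X ^ d i : ℤ⟦X⟧))
      = ∏ i ∈ T, (1 - X ^ d i : ℂ⟦X⟧) := by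
    rw [map_prod]
    refine Finset.prod_congr rfl fun i _ => ?_
    simp
  have hF : PowerSeries.map (Int.castRingHom ℂ) ((1 - X) * (1 - C (q : ℤ) * X) : ℤ⟦X⟧)
      = (1 - C (1 : ℂ) * X) * (1 - C (q : ℂ) * X) := by
    simp
  rw [map_mul, hP, hTm, hF] at h2
  have hA := (IsLg.multiset_prod s (fun a _ => isLg_linear a)).mul
    (IsLg.prod T (fun i _ => isLg_one_sub_X_pow (R := ℂ) (hpos i)))
  have hB := (isLg_linear (1 : ℂ)).mul (isLg_linear (q : ℂ))
  have hu : IsUnit ((s.map fun a => (1 - C a * X : ℂ⟦X⟧)).prod * ∏ i ∈ T, (1 - X ^ d i : ℂ⟦X⟧)) := by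
    rw [PowerSeries.isUnit_iff_constantCoeff, map_mul, map_prod, map_multiset_prod, Multiset.map_map]
    have e1 : (s.map (constantCoeff ∘ fun a => (1 - C a * X : ℂ⟦X⟧))).prod = 1 := by
      refine Multiset.prod_eq_one fun x hx => ?_
      obtain ⟨a, _, rfl⟩ := Multiset.mem_map.mp hx
      simp
    have e2 : ∏ x ∈ T, constantCoeff (1 - X ^ d x : ℂ⟦X⟧) = 1 :=
      Finset.prod_eq_one fun i _ => by simp [(hpos i).ne']
    rw [e1, e2]
    simp
  have h3 := cg_iff.mp (hA.cg hB hu h2) k (Nat.lt_succ_self k)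
  simp only [map_add, map_sum, coeff_mk, hk, if_false, one_pow] at h3
  rw [← h3, Finset.sum_filter]
  congr 1
  rw [map_multiset_sum, Multiset.map_map]
  congr 1
  refine Multiset.map_congr rfl fun a _ => ?_
  simp [hk]

/-! ### Evaluation -/

theorem summable_poly (s : ℂ) (P : Polynomial ℤ) :
    Summable fun m => ‖((coeff m (P : ℤ⟦X⟧) : ℤ) : ℂ) * s ^ m‖ := by
  refine summable_of_ne_finset_zero (s := P.support) fun m hm => ?_
  rw [Polynomial.coeff_coe, Polynomial.notMem_support_iff.mp hm]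
  simp

theorem tsum_poly (s : ℂ) (P : Polynomial ℤ) :
    ∑' m, ((coeff m (P : ℤ⟦X⟧) : ℤ) : ℂ) * s ^ m = Polynomial.aeval s P := by
  rw [Polynomial.aeval_eq_sum_range, tsum_eq_sum (s := Finset.range (P.natDegree + 1))]
  · refine Finset.sum_congr rfl fun m _ => ?_
    rw [Polynomial.coeff_coe]
    simp
  · intro m hm
    rw [Polynomial.coeff_coe, Polynomial.coeff_eq_zero_of_natDegree_lt]
    · simp
    · simpa using hm

theorem tsum_mul' {s : ℂ} {A B : ℤ⟦X⟧}
    (hA : Summable fun m => ‖((coeff m A : ℤ) : ℂ) * s ^ m‖)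
    (hB : Summable fun m => ‖((coeff m B : ℤ) : ℂ) * s ^ m‖) :
    ∑' m, ((coeff m (A * B) : ℤ) : ℂ) * s ^ m =
      (∑' m, ((coeff m A : ℤ) : ℂ) * s ^ m) * ∑' m, ((coeff m B : ℤ) : ℂ) * s ^ m := by
  rw [tsum_mul_tsum_eq_tsum_sum_antidiagonal_of_summable_norm hA hB]
  congr 1
  ext m
  rw [coeff_mul]
  push_cast
  rw [Finset.sum_mul]
  refine Finset.sum_congr rfl fun x hx => ?_
  rw [Finset.HasAntidiagonal.mem_antidiagonal] at hx
  rw [← hx, pow_add]
  ring

theorem coeff_bound {Z : ℤ⟦X⟧} {P : Polynomial ℤ} {q : ℕ} (hq : 1 ≤ q)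
    (hZ : Z * ((1 - X) * (1 - C (q : ℤ) * X)) = (P : ℤ⟦X⟧)) (m : ℕ) :
    |coeff m Z| ≤ (∑ j ∈ P.support, |P.coeff j|) * ((m + 1) * (q : ℤ) ^ m) := by
  have hq' : (1 : ℤ) ≤ q := by exact_mod_cast hq
  -- U = 1 / ((1 - X)(1 - qX))
  set U : ℤ⟦X⟧ := PowerSeries.mk (fun _ => (1 : ℤ)) * PowerSeries.mk (fun j => (q : ℤ) ^ j) with hU
  have hU1 : ((1 - X) * (1 - C (q : ℤ) * X)) * U = 1 := by
    have e1 : (1 - X : ℤ⟦X⟧) * PowerSeries.mk (fun _ => (1 : ℤ)) = 1 := by
      ext n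
      rw [sub_mul, one_mul, map_sub, coeff_mk]
      cases n with
      | zero => simp
      | succ n => simp [coeff_succ_X_mul, coeff_one]
    have e2 : (1 - C (q : ℤ) * X : ℤ⟦X⟧) * PowerSeries.mk (fun j => (q : ℤ) ^ j) = 1 := by
      ext n
      rw [sub_mul, one_mul, map_sub, coeff_mk, mul_assoc, coeff_C_mul]
      cases n with
      | zero => simp
      | succ n => simp [coeff_succ_X_mul, coeff_one, pow_succ, mul_comm]
    calc ((1 - X) * (1 - C (q : ℤ) * X)) * U
        = ((1 - X : ℤ⟦X⟧) * PowerSeries.mk (fun _ => (1 : ℤ))) *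
          ((1 - C (q : ℤ) * X : ℤ⟦X⟧) * PowerSeries.mk (fun j => (q : ℤ) ^ j)) := by rw [hU]; ring
      _ = 1 := by rw [e1, e2, one_mul]
  have hZ' : Z = (P : ℤ⟦X⟧) * U := by
    rw [← hZ, mul_assoc, hU1, mul_one]
  have hUc : ∀ j, j ≤ m → |coeff j U| ≤ (m + 1) * (q : ℤ) ^ m := by
    intro j hj
    rw [hU, coeff_mul]
    refine (Finset.abs_sum_le_sum_abs _ _).trans ?_
    have : ∀ x ∈ Finset.HasAntidiagonal.antidiagonal j,
        |coeff x.1 (PowerSeries.mk (fun _ => (1 : ℤ))) * coeff x.2 (PowerSeries.mk (fun j => (q : ℤ) ^ j))|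
          ≤ (q : ℤ) ^ m := by
      intro x hx
      rw [Finset.HasAntidiagonal.mem_antidiagonal] at hx
      rw [coeff_mk, coeff_mk, one_mul, abs_of_nonneg (by positivity)]
      exact pow_le_pow_right₀ hq' (by omega)
    refine (Finset.sum_le_card_nsmul _ _ _ this).trans ?_
    rw [Finset.Nat.card_antidiagonal, nsmul_eq_mul]
    refine mul_le_mul_of_nonneg_right ?_ (by positivity)
    push_cast
    have : (j : ℤ) ≤ m := by exact_mod_cast hj
    linarith
  rw [hZ', coeff_mul, Finset.Nat.sum_antidiagonal_eq_sum_range_succ_mk]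
  refine (Finset.abs_sum_le_sum_abs _ _).trans ?_
  have hM : (0 : ℤ) ≤ (m + 1) * (q : ℤ) ^ m := by positivity
  calc ∑ j ∈ Finset.range m.succ, |coeff j (P : ℤ⟦X⟧) * coeff (m - j) U|
      ≤ ∑ j ∈ Finset.range m.succ, |P.coeff j| * ((m + 1) * (q : ℤ) ^ m) := by
        refine Finset.sum_le_sum fun j _ => ?_
        rw [abs_mul, Polynomial.coeff_coe]
        exact mul_le_mul_of_nonneg_left (hUc _ (Nat.sub_le _ _)) (abs_nonneg _)
    _ = (∑ j ∈ Finset.range m.succ, |P.coeff j|) * ((m + 1) * (q : ℤ) ^ m) := by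
        rw [Finset.sum_mul]
    _ ≤ (∑ j ∈ P.support, |P.coeff j|) * ((m + 1) * (q : ℤ) ^ m) := by
        refine mul_le_mul_of_nonneg_right ?_ hM
        calc ∑ j ∈ Finset.range m.succ, |P.coeff j|
            = ∑ j ∈ (Finset.range m.succ).filter (· ∈ P.support), |P.coeff j| := by
              rw [Finset.sum_filter]
              refine Finset.sum_congr rfl fun j _ => ?_
              split_ifs with hj
              · rfl
              · rw [Polynomial.notMem_support_iff.mp hj, abs_zero]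
          _ ≤ ∑ j ∈ P.support, |P.coeff j| :=
              Finset.sum_le_sum_of_subset_of_nonneg (fun j hj => (Finset.mem_filter.mp hj).2)
                fun _ _ _ => abs_nonneg _

theorem aeval_ne_zero (h : IsEuler d E) {P : Polynomial ℤ} {q : ℕ}
    (hq : 1 ≤ q) (hPE : (P : ℤ⟦X⟧) * E = (1 - X) * (1 - C (q : ℤ) * X)) (s : ℂ)
    (hs : q * ‖s‖ < 1) : Polynomial.aeval s P ≠ 0 := by
  obtain ⟨Z, hZE, -, hmaj, -⟩ := exists_inverse h
  have hZ : Z * ((1 - X) * (1 - C (q : ℤ) * X)) = (P : ℤ⟦X⟧) := by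
    rw [← hPE]
    calc Z * ((P : ℤ⟦X⟧) * E) = (Z * E) * P := by ring
      _ = P := by rw [hZE, one_mul]
  set M : ℤ := ∑ j ∈ P.support, |P.coeff j| with hM
  have hM0 : 0 ≤ M := Finset.sum_nonneg fun _ _ => abs_nonneg _
  have hsumE : Summable fun m => ‖((coeff m E : ℤ) : ℂ) * s ^ m‖ := by
    have h1 : Summable fun m : ℕ => (M : ℝ) * ((m : ℝ) ^ 1 * (q * ‖s‖) ^ m + (q * ‖s‖) ^ m) := by
      refine Summable.mul_left _ (Summable.add ?_ ?_)
      · refine summable_pow_mul_geometric_of_norm_lt_one 1 ?_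
        rw [Real.norm_of_nonneg (by positivity)]
        exact hs
      · exact summable_geometric_of_lt_one (by positivity) hs
    refine Summable.of_nonneg_of_le (fun _ => norm_nonneg _) (fun m => ?_) h1
    rw [norm_mul, norm_pow, Complex.norm_intCast]
    have h2 : (|coeff m E| : ℤ) ≤ M * ((m + 1) * (q : ℤ) ^ m) :=
      (hmaj m).trans ((le_abs_self _).trans (coeff_bound hq hZ m))
    have h3 : (|((coeff m E : ℤ) : ℝ)|) ≤ M * ((m + 1) * (q : ℝ) ^ m) := by
      exact_mod_cast h2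
    calc |((coeff m E : ℤ) : ℝ)| * ‖s‖ ^ m ≤ (M * ((m + 1) * (q : ℝ) ^ m)) * ‖s‖ ^ m :=
          mul_le_mul_of_nonneg_right h3 (by positivity)
      _ = (M : ℝ) * ((m : ℝ) ^ 1 * (q * ‖s‖) ^ m + (q * ‖s‖) ^ m) := by
          rw [mul_pow]; ring
  intro h0
  have h4 := tsum_mul' (summable_poly s P) hsumE
  have h5 : (((1 - Polynomial.X) * (1 - Polynomial.C (q : ℤ) * Polynomial.X) : Polynomial ℤ) : ℤ⟦X⟧)
      = (1 - X) * (1 - C (q : ℤ) * X) := by
    rw [Polynomial.coe_mul, Polynomial.coe_sub, Polynomial.coe_sub, Polynomial.coe_one,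
      Polynomial.coe_mul, Polynomial.coe_C, Polynomial.coe_X]
  rw [hPE, tsum_poly, h0, zero_mul, ← h5, tsum_poly] at h4
  simp only [map_mul, map_sub, map_one, Polynomial.aeval_X, Polynomial.aeval_C, mul_eq_zero,
    sub_eq_zero] at h4
  have hqr : (1 : ℝ) ≤ q := by exact_mod_cast hq
  have hs1 : ‖s‖ < 1 := by
    refine lt_of_le_of_lt ?_ hs
    nlinarith [norm_nonneg s]
  rcases h4 with h4 | h4
  · rw [← h4] at hs1
    simp at hs1
  · have := congrArg norm h4
    simp at this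
    linarith

end Pool.Agent.Helper2.Zp
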