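import Pool.Agent.Helper2.Zp.Newton

/-!
Reciprocal roots of zeta numerators and Northcott finiteness.
-/

set_option autoImplicit false

open Polynomial

namespace Pool.Agent.Helper2.Zp

/-- The multiset of reciprocal complex roots. -/
noncomputable def recRoots (P : ℤ[X]) : Multiset ℂ :=
  (P.map (Int.castRingHom ℂ)).roots.map fun a => a⁻¹

theorem map_eq_prod_recRoots {P : ℤ[X]} (h0 : P.coeff 0 = 1) :
    P.map (Int.castRingHom ℂ) = ((recRoots P).map fun a => 1 - C a * X).prod := by
  set f := P.map (Int.castRingHom ℂ) with hf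
  have hf0 : f.coeff 0 = 1 := by simp [hf, h0]
  have hfne : f ≠ 0 := by rintro h; rw [h] at hf0; simp at hf0
  have h1 : f = C f.leadingCoeff * (f.roots.map fun x => X - C x).prod :=
    (IsAlgClosed.splits f).eq_prod_roots
  have hne : ∀ a ∈ f.roots, a ≠ 0 := by
    rintro a ha rfl
    have := (mem_roots hfne).mp ha
    rw [IsRoot, ← coeff_zero_eq_eval_zero, hf0] at this
    exact one_ne_zero this
  have h2 : (f.roots.map fun x => X - C x).prod =
      C (f.roots.map fun x => -x).prod * (f.roots.map fun x => 1 - C x⁻¹ * X).prod := by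
    rw [map_multiset_prod, Multiset.map_map, ← Multiset.prod_map_mul]
    congr 1
    refine Multiset.map_congr rfl fun a ha => ?_
    simp only [Function.comp]
    rw [mul_sub, mul_one, ← mul_assoc, ← C_mul, neg_mul, mul_inv_cancel₀ (hne a ha)]
    simp
    ring
  have h3 : f.leadingCoeff * (f.roots.map fun x => -x).prod = 1 := by
    have h4 : f.eval 0 = 1 := by rw [← coeff_zero_eq_eval_zero, hf0]
    rw [h1, eval_mul, eval_C, eval_multiset_prod, Multiset.map_map] at h4
    rw [← h4]
    congr 2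
    refine Multiset.map_congr rfl fun a _ => ?_
    simp
  rw [recRoots, Multiset.map_map]
  conv_lhs => rw [h1, h2, ← mul_assoc, ← C_mul, h3, C_1, one_mul]
  rfl

theorem ne_zero_of_mem_recRoots {P : ℤ[X]} (h0 : P.coeff 0 = 1) {a : ℂ} (ha : a ∈ recRoots P) :
    a ≠ 0 := by
  obtain ⟨x, hx, rfl⟩ := Multiset.mem_map.mp ha
  refine inv_ne_zero ?_
  rintro rfl
  have hfne : P.map (Int.castRingHom ℂ) ≠ 0 := by
    intro h
    have := congrArg (fun f => coeff f 0) h
    simp [h0] at this
  have := (mem_roots hfne).mp hx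
  rw [IsRoot, ← coeff_zero_eq_eval_zero] at this
  simp [h0] at this

theorem aeval_inv_of_mem_recRoots {P : ℤ[X]} {a : ℂ} (ha : a ∈ recRoots P) :
    aeval a⁻¹ P = 0 := by
  obtain ⟨x, hx, rfl⟩ := Multiset.mem_map.mp ha
  have hfne : P.map (Int.castRingHom ℂ) ≠ 0 := by
    intro h
    rw [h] at hx
    simp at hx
  have := (mem_roots hfne).mp hx
  rw [inv_inv, aeval_def]
  rw [IsRoot, eval_map] at this
  simpa using this

theorem reverse_monic {P : ℤ[X]} (h0 : P.coeff 0 = 1) : P.reverse.Monic := by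
  rw [Monic, reverse_leadingCoeff, trailingCoeff]
  have : P.natTrailingDegree = 0 := natTrailingDegree_eq_zero.mpr (Or.inr (by simp [h0]))
  rw [this, h0]

theorem aeval_reverse_iff {P : ℤ[X]} {a : ℂ} (ha : a ≠ 0) :
    aeval a P.reverse = 0 ↔ aeval a⁻¹ P = 0 := by
  let : Invertible a⁻¹ := invertibleOfNonzero (inv_ne_zero ha)
  have := eval₂_reverse_eq_zero_iff (Int.castRingHom ℂ) a⁻¹ P
  rw [invOf_eq_inv, inv_inv] at this
  simpa [aeval_def] using this

theorem aeval_reverse_ne_zero {P : ℤ[X]} (h0 : P.coeff 0 = 1) :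
    aeval (0 : ℂ) P.reverse ≠ 0 := by
  rw [aeval_def, eval₂_at_zero, coeff_zero_reverse]
  have : P.leadingCoeff ≠ 0 := by
    rw [leadingCoeff_ne_zero]
    rintro rfl
    simp at h0
  simpa using this

/-- Algebraic integers of degree at most `B` all of whose conjugates have absolute value
at most `q`. -/
def northcottSet (q : ℝ) (B : ℕ) : Set ℂ :=
  {a | ∃ f : ℤ[X], f.Monic ∧ f.natDegree ≤ B ∧ aeval a f = 0 ∧ ∀ z : ℂ, aeval z f = 0 → ‖z‖ ≤ q}

theorem northcottSet_finite (q : ℝ) (B : ℕ) : (northcottSet q B).Finite := by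
  classical
  set K : ℝ := max q 1 ^ B * ((B.choose (B / 2) : ℕ) : ℝ) with hK
  set U : Set ℤ := Set.Icc (-⌊K⌋) ⌊K⌋ with hU
  have hfin : U.Finite := Set.finite_Icc _ _
  refine (bUnion_roots_finite (Int.castRingHom ℂ) B hfin).subset ?_
  rintro a ⟨f, hmon, hdeg, haf, hroots⟩
  have hmap : f.map (Int.castRingHom ℂ) ≠ 0 := (hmon.map _).ne_zero
  refine Set.mem_iUnion₂.mpr ⟨f, ⟨hdeg, fun i => ?_⟩, ?_⟩
  · have h1 := coeff_bdd_of_roots_le (B := q) (d := B) (Int.castRingHom ℂ) hmon
      (IsAlgClosed.splits _) hdeg (fun z hz => hroots z (by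
        have := (mem_roots hmap).mp hz
        rw [IsRoot, eval_map] at this
        simpa [aeval_def] using this)) i
    rw [coeff_map, eq_intCast, Complex.norm_intCast] at h1
    have h2 : |f.coeff i| ≤ ⌊K⌋ := by
      rw [Int.le_floor]
      push_cast
      exact h1
    rw [abs_le] at h2
    exact ⟨h2.1, h2.2⟩
  · simp only [Finset.mem_coe, Multiset.mem_toFinset]
    rw [mem_roots hmap, IsRoot, eval_map]
    simpa [aeval_def] using haf

theorem mem_northcottSet {P : ℤ[X]} (h0 : P.coeff 0 = 1) {q : ℝ} {B : ℕ} (hq : 0 < q)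
    (hP : ∀ s : ℂ, q * ‖s‖ < 1 → aeval s P ≠ 0)
    (hB : Module.finrank ℚ (P.map (Int.castRingHom ℚ)).SplittingField ≤ B)
    {a : ℂ} (ha : a ∈ recRoots P) : a ∈ northcottSet q B := by
  have ha0 := ne_zero_of_mem_recRoots h0 ha
  have haP := aeval_inv_of_mem_recRoots ha
  have har : aeval a P.reverse = 0 := (aeval_reverse_iff ha0).mpr haP
  have hint : IsIntegral ℤ a := ⟨P.reverse, reverse_monic h0, by simpa [aeval_def] using har⟩
  refine ⟨minpoly ℤ a, minpoly.monic hint, ?_, minpoly.aeval ℤ a, fun z hz => ?_⟩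
  · -- degree bound
    set Q : ℚ[X] := P.map (Int.castRingHom ℚ) with hQ
    have hsplit : (Q.map (algebraMap ℚ ℂ)).Splits := IsAlgClosed.splits _
    let φ : Q.SplittingField →ₐ[ℚ] ℂ := SplittingField.lift Q hsplit
    have hQ0 : Q.map (algebraMap ℚ Q.SplittingField) ≠ 0 := by
      intro h
      have := congrArg (fun f => coeff f 0) h
      simp [hQ, h0] at this
    -- the inverse root lies in the range of φ
    have hroot : a⁻¹ ∈ (Q.map (algebraMap ℚ ℂ)).roots := by
      rw [mem_roots]
      · rw [IsRoot, eval_map, hQ, eval₂_map,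
          Subsingleton.elim ((algebraMap ℚ ℂ).comp (Int.castRingHom ℚ)) (Int.castRingHom ℂ)]
        simpa [aeval_def] using haP
      · intro h
        have := congrArg (fun f => coeff f 0) h
        simp [hQ, h0] at this
    have hsp2 : (Q.map (algebraMap ℚ Q.SplittingField)).Splits := SplittingField.splits Q
    have hrange : ∃ y : Q.SplittingField, φ y = a⁻¹ := by
      have h3 : Q.map (algebraMap ℚ ℂ) = (Q.map (algebraMap ℚ Q.SplittingField)).map (φ : Q.SplittingField →+* ℂ) := by
        rw [Polynomial.map_map (f := algebraMap ℚ Q.SplittingField),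
          Subsingleton.elim ((φ : Q.SplittingField →+* ℂ).comp (algebraMap ℚ Q.SplittingField))
            (algebraMap ℚ ℂ)]
      rw [h3, hsp2.roots_map] at hroot
      obtain ⟨y, _, hy⟩ := Multiset.mem_map.mp hroot
      exact ⟨y, hy⟩
    obtain ⟨y, hy⟩ := hrange
    have hy' : φ y⁻¹ = a := by rw [map_inv₀, hy, inv_inv]
    have h4 : minpoly ℚ a = minpoly ℚ (y⁻¹) := by
      rw [← hy']
      exact minpoly.algHom_eq φ φ.injective _
    have h5 : (minpoly ℤ a).natDegree = (minpoly ℚ a).natDegree := by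
      rw [minpoly.isIntegrallyClosed_eq_field_fractions' ℚ hint]
      exact ((minpoly.monic hint).natDegree_map _).symm
    rw [h5, h4]
    exact (minpoly.natDegree_le _).trans hB
  · -- root bound
    obtain ⟨g, hg⟩ := minpoly.isIntegrallyClosed_dvd hint har
    have hzr : aeval z P.reverse = 0 := by rw [hg, map_mul, hz, zero_mul]
    have hz0 : z ≠ 0 := by
      rintro rfl
      exact aeval_reverse_ne_zero h0 hzr
    have h6 := (aeval_reverse_iff hz0).mp hzr
    by_contra hlt
    push Not at hlt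
    refine hP z⁻¹ ?_ h6
    rw [norm_inv, ← div_eq_mul_inv, div_lt_one (norm_pos_iff.mpr hz0)]
    exact hlt

end Pool.Agent.Helper2.Zp
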