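import Pool.Agent.Helper2.Zp.Defs

/-!
Extension and restriction of places in algebraic field extensions.
-/

set_option autoImplicit false

namespace ZpTower

open IsLocalRing

section General

variable {K L : Type*} [Field K] [Field L] [Algebra K L]

/-- A valuation ring of `L` containing the image of a subring `A` of `K` contains all elements
integral over `A`. -/
theorem integral_mem (A : ValuationSubring K) (W : ValuationSubring L)
    (h : ∀ a ∈ A, algebraMap K L a ∈ W) {x : L} (hx : IsIntegral A x) : x ∈ W := by
  obtain ⟨p, hp, hpx⟩ := hx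
  let ψ : A →+* W := ((algebraMap K L).comp A.subtype).codRestrict W.toSubring (fun a => h a a.2)
  have h1 : IsIntegral W x := by
    refine ⟨p.map ψ, hp.map ψ, ?_⟩
    rw [Polynomial.eval₂_map]
    have : (algebraMap W L).comp ψ = algebraMap A L := by
      ext a
      rfl
    rw [this]
    exact hpx
  obtain ⟨y, hy⟩ := IsIntegrallyClosed.isIntegral_iff.mp h1
  rw [← hy]
  exact y.2

/-- If a valuation ring of an algebraic extension contains the base field, it is everything. -/
theorem eq_top_of_base_le [Algebra.IsAlgebraic K L] (W : ValuationSubring L)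
    (h : ∀ a : K, algebraMap K L a ∈ W) : W = ⊤ := by
  refine eq_top_iff.mpr fun x _ => ?_
  have hx : IsIntegral K x := (Algebra.IsAlgebraic.isAlgebraic x).isIntegral
  obtain ⟨p, hp, hpx⟩ := hx
  let ψ : K →+* W := (algebraMap K L).codRestrict W.toSubring h
  have h1 : IsIntegral W x := by
    refine ⟨p.map ψ, hp.map ψ, ?_⟩
    rw [Polynomial.eval₂_map]
    have : (algebraMap W L).comp ψ = algebraMap K L := by
      ext a
      rfl
    rw [this]
    exact hpx
  obtain ⟨y, hy⟩ := IsIntegrallyClosed.isIntegral_iff.mp h1
  rw [← hy]
  exact y.2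

theorem ne_top_of_dvr (W : ValuationSubring L) [IsDiscreteValuationRing W] : W ≠ ⊤ := by
  rintro rfl
  have h1 := IsDiscreteValuationRing.not_a_field (⊤ : ValuationSubring L)
  apply h1
  rw [eq_bot_iff]
  intro x hx
  by_contra hx0
  have hx0' : x ≠ 0 := hx0
  have : IsUnit x := isUnit_iff_ne_zero.mpr hx0'
  exact (mem_maximalIdeal x).mp hx this

/-- The restriction of a discrete valuation ring along an algebraic extension is a discrete
valuation ring. -/
theorem dvr_comap [Algebra.IsAlgebraic K L] (W : ValuationSubring L) [IsDiscreteValuationRing W] :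
    IsDiscreteValuationRing (W.comap (algebraMap K L)) := by
  set A : ValuationSubring K := W.comap (algebraMap K L) with hA
  let ψ : A →+* W := ((algebraMap K L).comp A.subtype).codRestrict W.toSubring (fun a => a.2)
  have hψinj : Function.Injective ψ := by
    intro a b hab
    have : algebraMap K L (a : K) = algebraMap K L (b : K) := congrArg Subtype.val hab
    exact Subtype.ext ((algebraMap K L).injective this)
  have hψunit : ∀ a : A, IsUnit (ψ a) → IsUnit a := by
    intro a ha
    have ha0 : (a : K) ≠ 0 := by
      intro h0
      have : ψ a = 0 := by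
        apply Subtype.ext
        show algebraMap K L (a : K) = 0
        rw [h0, map_zero]
      rw [this] at ha
      exact not_isUnit_zero ha
    obtain ⟨u, hu⟩ := ha.exists_right_inv
    have hinv : (a : K)⁻¹ ∈ A := by
      show algebraMap K L (a : K)⁻¹ ∈ W
      rw [map_inv₀]
      have h1 : algebraMap K L (a : K) * (u : L) = 1 := congrArg Subtype.val hu
      have h2 : (algebraMap K L (a : K))⁻¹ = u := by
        rw [eq_comm]
        exact eq_inv_of_mul_eq_one_right h1
      rw [h2]
      exact u.2
    refine IsUnit.of_mul_eq_one ⟨(a : K)⁻¹, hinv⟩ ?_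
    apply Subtype.ext
    show (a : K) * (a : K)⁻¹ = 1
    exact mul_inv_cancel₀ ha0
  -- Noetherian
  have hnoeth : IsNoetherianRing A := by
    rw [isNoetherianRing_iff, isNoetherian_iff']
    have hmono : StrictMono (fun I : Ideal A => I.map ψ) := by
      intro I J hIJ
      refine lt_of_le_of_ne (Ideal.map_mono hIJ.le) fun heq => ?_
      obtain ⟨j, hjJ, hjI⟩ := SetLike.exists_of_lt hIJ
      have hj0 : j ≠ 0 := fun h => hjI (h ▸ I.zero_mem)
      have h1 : I.map ψ ≤ Ideal.span {ψ j} * maximalIdeal W := by
        rw [Ideal.map_le_iff_le_comap]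
        intro i hi
        rw [Ideal.mem_comap]
        rcases ValuationRing.dvd_total j i with ⟨a, ha⟩ | ⟨a, ha⟩
        · have haU : ¬ IsUnit a := by
            intro hu
            obtain ⟨u, rfl⟩ := hu
            apply hjI
            have : j = i * (↑u⁻¹ : A) := by rw [ha, mul_assoc, Units.mul_inv, mul_one]
            rw [this]
            exact I.mul_mem_right _ hi
          rw [ha, map_mul]
          refine Ideal.mul_mem_mul (Ideal.mem_span_singleton_self _) ?_
          rw [mem_maximalIdeal]
          exact fun h => haU (hψunit a h)
        · exact absurd (ha ▸ I.mul_mem_right _ hi) hjI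
      have h2 : ψ j ∈ Ideal.span {ψ j} * maximalIdeal W := by
        refine h1 ?_
        rw [show I.map ψ = J.map ψ from heq]
        exact Ideal.mem_map_of_mem ψ hjJ
      rw [Ideal.mem_span_singleton_mul] at h2
      obtain ⟨t, ht, htj⟩ := h2
      have hψj : ψ j ≠ 0 := fun h => hj0 (hψinj (by rw [h, map_zero]))
      have ht1 : t = 1 := by
        have : ψ j * t = ψ j * 1 := by rw [htj, mul_one]
        exact mul_left_cancel₀ hψj this
      rw [ht1] at ht
      exact (Ideal.ne_top_iff_one _).mp (maximalIdeal.isMaximal W).ne_top ht
    exact hmono.wellFoundedGT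
  have hbot : maximalIdeal A ≠ ⊥ := by
    intro hbot
    apply ne_top_of_dvr W
    refine eq_top_of_base_le (K := K) W fun a => ?_
    rcases A.mem_or_inv_mem a with h | h
    · exact h
    · by_cases ha : a = 0
      · rw [ha, map_zero]; exact W.zero_mem
      · have h1 : IsUnit (⟨a⁻¹, h⟩ : A) := by
          by_contra hu
          have h2 : (⟨a⁻¹, h⟩ : A) ∈ maximalIdeal A := (mem_maximalIdeal _).mpr hu
          rw [hbot, Ideal.mem_bot] at h2
          exact inv_ne_zero ha (congrArg Subtype.val h2)
        obtain ⟨u, hu⟩ := h1.exists_right_inv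
        have h3 : a⁻¹ * (u : K) = 1 := congrArg Subtype.val hu
        have h4 : a = u := by
          have := congrArg (fun t => a * t) h3
          simp only [mul_one] at this
          rw [← mul_assoc, mul_inv_cancel₀ ha, one_mul] at this
          exact this.symm
        rw [h4]
        exact u.2
  have hpir : IsPrincipalIdealRing A := inferInstance
  exact { hpir with not_a_field' := hbot }

end General

variable {k K L : Type*} [Field k] [Field K] [Field L] [Algebra k K] [Algebra k L] [Algebra K L]
  [IsScalarTower k K L]

/-- The restriction of a place of `L` to `K`, for `L / K` algebraic. -/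
def Place.restrict (K : Type*) [Field K] [Algebra k K] [Algebra K L] [IsScalarTower k K L]
    [Algebra.IsAlgebraic K L] (w : Place k L) : Place k K where
  ring := w.ring.comap (algebraMap K L)
  algebraMap_mem a := by
    show algebraMap K L (algebraMap k K a) ∈ w.ring
    rw [← IsScalarTower.algebraMap_apply]
    exact w.algebraMap_mem a
  isDVR := dvr_comap w.ring

theorem Place.mem_restrict_ring [Algebra.IsAlgebraic K L] (w : Place k L) (x : K) :
    x ∈ (w.restrict K).ring ↔ algebraMap K L x ∈ w.ring := Iff.rfl

end ZpTower
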