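import Pool.Agent.Helper2.Zp.Places

/-!
Places above a given place and primes of the integral closure.
-/

set_option autoImplicit false

namespace ZpTower

open IsLocalRing IsDedekindDomain

variable {k K L : Type*} [Field k] [Field K] [Field L] [Algebra k K] [Algebra k L] [Algebra K L]
  [IsScalarTower k K L] [FiniteDimensional K L] [Algebra.IsSeparable K L]

instance instDed (v : Place k K) : IsDedekindDomain (integralClosure v.ring L) :=
  integralClosure.isDedekindDomain v.ring K L

instance instFrac (v : Place k K) : IsFractionRing (integralClosure v.ring L) L :=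
  integralClosure.isFractionRing_of_finite_extension K L

instance instFin (v : Place k K) : Module.Finite v.ring (integralClosure v.ring L) :=
  IsIntegralClosure.finite v.ring K L (integralClosure v.ring L)

omit [FiniteDimensional K L] [Algebra.IsSeparable K L] in
theorem algebraMap_intCl_injective (v : Place k K) :
    Function.Injective (algebraMap v.ring (integralClosure v.ring L)) := by
  intro a b hab
  have h1 : algebraMap v.ring L a = algebraMap v.ring L b := by
    rw [IsScalarTower.algebraMap_apply v.ring (integralClosure v.ring L) L, hab,
      ← IsScalarTower.algebraMap_apply v.ring (integralClosure v.ring L) L]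
  have h2 : algebraMap K L (a : K) = algebraMap K L (b : K) := h1
  exact Subtype.ext ((algebraMap K L).injective h2)

instance instFaith (v : Place k K) : FaithfulSMul v.ring (integralClosure v.ring L) :=
  (faithfulSMul_iff_algebraMap_injective _ _).mpr (algebraMap_intCl_injective v)

section Over

variable {v : Place k K} {w : Place k L}

theorem mem_of_over (h : w.restrict K = v) {a : K} (ha : a ∈ v.ring) :
    algebraMap K L a ∈ w.ring := by
  subst h
  exact ha

/-- The map from the integral closure to the valuation ring of a place above `v`. -/
def toRing (h : w.restrict K = v) : integralClosure v.ring L →+* w.ring :=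
  (integralClosure v.ring L).val.toRingHom.codRestrict w.ring.toSubring
    (fun b => integral_mem v.ring w.ring (fun _ ha => mem_of_over h ha) b.2)

theorem coe_toRing (h : w.restrict K = v) (b : integralClosure v.ring L) :
    ((toRing h b : w.ring) : L) = b := rfl

theorem toRing_injective (h : w.restrict K = v) : Function.Injective (toRing h) := by
  intro a b hab
  exact Subtype.ext (congrArg (fun t : w.ring => (t : L)) hab)

/-- The prime of the integral closure attached to a place above `v`. -/
def primeOf (h : w.restrict K = v) : Ideal (integralClosure v.ring L) :=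
  (maximalIdeal w.ring).comap (toRing h)

instance (h : w.restrict K = v) : (primeOf h).IsPrime := by
  unfold primeOf
  infer_instance

theorem mem_primeOf (h : w.restrict K = v) (b : integralClosure v.ring L) :
    b ∈ primeOf h ↔ toRing h b ∈ maximalIdeal w.ring := Iff.rfl

instance liesOver_primeOf (h : w.restrict K = v) :
    (primeOf h).LiesOver (maximalIdeal v.ring) := by
  constructor
  ext a
  rw [Ideal.under_def, Ideal.mem_comap, mem_primeOf, mem_maximalIdeal, mem_maximalIdeal,
    mem_nonunits_iff, mem_nonunits_iff, not_iff_not]
  constructor
  · intro ha
    exact ha.map ((toRing h).comp (algebraMap v.ring (integralClosure v.ring L)))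
  · intro hu
    obtain ⟨u, hu'⟩ := hu.exists_right_inv
    have h1 : algebraMap K L (a : K) * (u : L) = 1 := congrArg Subtype.val hu'
    have ha0 : (a : K) ≠ 0 := by
      intro h0
      rw [h0, map_zero, zero_mul] at h1
      exact zero_ne_one h1
    have hinv : (a : K)⁻¹ ∈ v.ring := by
      subst h
      rw [Place.mem_restrict_ring, map_inv₀]
      have h2 : (algebraMap K L (a : K))⁻¹ = u := by
        rw [eq_comm]
        exact eq_inv_of_mul_eq_one_right h1
      rw [h2]
      exact u.2
    refine IsUnit.of_mul_eq_one ⟨(a : K)⁻¹, hinv⟩ ?_
    apply Subtype.ext
    show (a : K) * (a : K)⁻¹ = 1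
    exact mul_inv_cancel₀ ha0

theorem maximalIdeal_ne_bot (v : Place k K) : maximalIdeal v.ring ≠ ⊥ :=
  IsDiscreteValuationRing.not_a_field _

theorem primeOf_ne_bot (h : w.restrict K = v) : primeOf h ≠ ⊥ :=
  Ideal.ne_bot_of_liesOver_of_ne_bot (maximalIdeal_ne_bot v) _

/-- The prime attached to a place above `v`, as an element of the height one spectrum. -/
def specOf (h : w.restrict K = v) : HeightOneSpectrum (integralClosure v.ring L) :=
  ⟨primeOf h, inferInstance, primeOf_ne_bot h⟩

theorem ring_eq (h : w.restrict K = v) :
    HeightOneSpectrum.valuationSubringAtPrime L (specOf h) = w.ring := by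
  apply ValuationSubring.eq_of_le_of_ne_top
  · rintro x ⟨a, s, hs, rfl⟩
    have h1 : IsUnit (toRing h s) := by
      by_contra hu
      exact hs ((mem_maximalIdeal _).mpr hu)
    obtain ⟨u, hu⟩ := h1.exists_right_inv
    have h2 : (s : L) * (u : L) = 1 := congrArg Subtype.val hu
    have h3 : (algebraMap (integralClosure v.ring L) L s)⁻¹ = u := by
      rw [eq_comm]
      exact eq_inv_of_mul_eq_one_right h2
    rw [h3]
    exact w.ring.mul_mem _ _ (toRing h a).2 u.2
  · exact ne_top_of_dvr w.ring

end Over

section Construct

variable (v : Place k K) (P : Ideal (integralClosure v.ring L)) [hP : P.IsPrime]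
  [hPv : P.LiesOver (maximalIdeal v.ring)]

/-- The element of the height one spectrum attached to a prime above `v`. -/
def specOfPrime : HeightOneSpectrum (integralClosure v.ring L) :=
  ⟨P, hP, Ideal.ne_bot_of_liesOver_of_ne_bot (maximalIdeal_ne_bot v) P⟩

/-- The place attached to a prime above `v`. -/
noncomputable def placeOf : Place k L where
  ring := HeightOneSpectrum.valuationSubringAtPrime L (specOfPrime v P)
  algebraMap_mem a := by
    have h1 : algebraMap k L a = algebraMap (integralClosure v.ring L) L
        (algebraMap v.ring (integralClosure v.ring L) (algebraMap k v.ring a)) := by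
      rw [← IsScalarTower.algebraMap_apply v.ring (integralClosure v.ring L) L]
      rw [IsScalarTower.algebraMap_apply k K L]
      rfl
    rw [h1]
    exact (algebraMap (integralClosure v.ring L)
      (HeightOneSpectrum.valuationSubringAtPrime L (specOfPrime v P)) _).2
  isDVR := IsLocalization.AtPrime.isDiscreteValuationRing_of_dedekind_domain
    (integralClosure v.ring L) (specOfPrime v P).ne_bot _

theorem restrict_placeOf : (placeOf v P).restrict K = v := by
  apply Place.ext
  symm
  apply ValuationSubring.eq_of_le_of_ne_top
  · intro a ha
    rw [Place.mem_restrict_ring]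
    have h1 : algebraMap K L a = algebraMap (integralClosure v.ring L) L
        (algebraMap v.ring (integralClosure v.ring L) ⟨a, ha⟩) := by
      rw [← IsScalarTower.algebraMap_apply v.ring (integralClosure v.ring L) L]
      rfl
    rw [h1]
    exact (algebraMap (integralClosure v.ring L)
      (HeightOneSpectrum.valuationSubringAtPrime L (specOfPrime v P)) _).2
  · exact ne_top_of_dvr ((placeOf v P).restrict K).ring

theorem primeOf_placeOf : primeOf (restrict_placeOf v P) = P := by
  ext b
  rw [mem_primeOf]
  have h0 : IsLocalization.AtPrime
      (HeightOneSpectrum.valuationSubringAtPrime L (specOfPrime v P)) P :=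
    inferInstanceAs (IsLocalization (specOfPrime v P).asIdeal.primeCompl
      (HeightOneSpectrum.valuationSubringAtPrime L (specOfPrime v P)))
  have h1 := IsLocalization.AtPrime.to_map_mem_maximal_iff
    (HeightOneSpectrum.valuationSubringAtPrime L (specOfPrime v P)) P b
  rw [← h1]
  rfl

end Construct

end ZpTower
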