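import Pool.Agent.Helper2.Zp.Northcott

/-!
The combinatorial core of the proof that splitting fields of zeta numerators grow in
`ℤ_p`-towers.
-/

set_option autoImplicit false

open PowerSeries Filter Topology

namespace Pool.Agent.Helper2.Zp

theorem vandermonde_finset (W : Finset ℂ) (h0 : (0 : ℂ) ∉ W) (c : ℂ → ℂ)
    (h : ∀ k, 1 ≤ k → k ≤ W.card → ∑ a ∈ W, c a * a ^ k = 0) : ∀ a ∈ W, c a = 0 := by
  classical
  let e := W.equivFin.symm
  let f : Fin W.card → ℂ := fun i => (e i : ℂ)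
  let v : Fin W.card → ℂ := fun i => c (e i) * (e i : ℂ)
  have hf : Function.Injective f := fun i j hij => e.injective (Subtype.ext hij)
  have hv : ∀ i : Fin W.card, ∑ j, v j * f j ^ (i : ℕ) = 0 := by
    intro i
    have h1 := h (i + 1) (Nat.succ_le_succ (Nat.zero_le _)) (Nat.succ_le_of_lt i.isLt)
    rw [← h1, ← Finset.sum_coe_sort W, ← e.sum_comp]
    refine Finset.sum_congr rfl fun j _ => ?_
    simp only [v, f]
    ring
  have h2 := Matrix.eq_zero_of_forall_pow_sum_mul_pow_eq_zero hf hv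
  intro a ha
  have h3 := congrFun h2 (e.symm ⟨a, ha⟩)
  simp only [v, Equiv.apply_symm_apply, Pi.zero_apply, mul_eq_zero] at h3
  rcases h3 with h3 | h3
  · exact h3
  · exact absurd (h3 ▸ ha) h0

theorem eventually_const_of_bdd {f : ℕ → ℕ} (hf : ∀ n, f n ≤ f (n + 1)) {B : ℕ}
    (hB : ∀ n, f n ≤ B) : ∃ n₁, ∀ n, n₁ ≤ n → f n = f n₁ := by
  have hmono : Monotone f := monotone_nat_of_le_succ hf
  have h1 : sSup (Set.range f) ∈ Set.range f :=
    Nat.sSup_mem (Set.range_nonempty f) ⟨B, by rintro _ ⟨n, rfl⟩; exact hB n⟩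
  obtain ⟨n₁, hn₁⟩ := h1
  refine ⟨n₁, fun n hn => le_antisymm ?_ (hmono hn)⟩
  rw [hn₁]
  exact le_csSup ⟨B, by rintro _ ⟨n, rfl⟩; exact hB n⟩ ⟨n, rfl⟩

variable {V : Type*} {W : ℕ → Type*}

/-- Numerical data attached to a tower of coverings. -/
structure TowerData (V : Type*) (W : ℕ → Type*) (p : ℕ) where
  /-- projection of a place to the base -/
  π : ∀ n, W n → V
  /-- degree of a place -/
  deg : ∀ n, W n → ℕ
  /-- degree of a place of the base -/
  d : V → ℕ
  /-- relative residue degree -/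
  f : ℕ → V → ℕ
  /-- number of places above -/
  g : ℕ → V → ℕ
  /-- ramified places -/
  S : Set V
  two_le : 2 ≤ p
  card_fib : ∀ n v, (π n ⁻¹' {v}).ncard = g n v
  deg_eq : ∀ n w, deg n w = f n (π n w) * d (π n w)
  f_pos : ∀ n v, 0 < f n v
  g_pos : ∀ n v, 0 < g n v
  f_zero : ∀ v, f 0 v = 1
  g_zero : ∀ v, g 0 v = 1
  fg_le : ∀ n v, f n v * g n v ≤ p ^ n
  f_mono : ∀ n v, f n v ≤ f (n + 1) v
  g_le : ∀ n v, g (n + 1) v ≤ p * g n v
  g_split : ∀ n v, g (n + 1) v = p ^ (n + 1) ∨ g (n + 1) v = g n v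
  S_fin : S.Finite
  unr : ∀ v, v ∉ S → ∀ n, f n v * g n v = p ^ n
  exists_unr : ∃ v, v ∉ S

namespace TowerData

variable {p : ℕ} (D : TowerData V W p)

/-- Contribution of `v` to the number of points of degree dividing `k` at level `n`. -/
noncomputable def c (n : ℕ) (v : V) (k : ℕ) : ℕ :=
  if D.f n v * D.d v ∣ k then D.g n v * (D.f n v * D.d v) else 0

theorem fib_finite (n : ℕ) (v : V) : (D.π n ⁻¹' {v}).Finite :=
  Set.finite_of_ncard_pos (by rw [D.card_fib]; exact D.g_pos n v)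

theorem preimage_finite (n : ℕ) (T : Finset V) : (D.π n ⁻¹' (T : Set V)).Finite :=
  T.finite_toSet.preimage' fun v _ => D.fib_finite n v

theorem d_le_deg (n : ℕ) (w : W n) : D.d (D.π n w) ≤ D.deg n w := by
  rw [D.deg_eq]
  exact Nat.le_mul_of_pos_left _ (D.f_pos _ _)

open Classical in
theorem card_filter (n : ℕ) (T : Finset V) (v : V) (hv : v ∈ T) :
    ((D.preimage_finite n T).toFinset.filter fun w => D.π n w = v).card = D.g n v := by
  rw [← D.card_fib n v, ← Set.ncard_coe_finset]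
  congr 1
  ext w
  simp only [Finset.coe_filter, Set.Finite.mem_toFinset, Set.mem_preimage, Finset.mem_coe,
    Set.mem_ofPred_eq, Set.mem_singleton_iff]
  constructor
  · exact fun h => h.2
  · exact fun h => ⟨h ▸ hv, h⟩

theorem sum_fib (n : ℕ) (T : Finset V) (F : ℕ → ℕ) :
    ∑ w ∈ (D.preimage_finite n T).toFinset, F (D.deg n w) =
      ∑ v ∈ T, D.g n v * F (D.f n v * D.d v) := by
  classical
  rw [← Finset.sum_fiberwise_of_maps_to (g := D.π n) (t := T)]
  · refine Finset.sum_congr rfl fun v hv => ?_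
    rw [← D.card_filter n T v hv, ← smul_eq_mul, ← Finset.sum_const]
    refine Finset.sum_congr rfl fun w hw => ?_
    rw [D.deg_eq, (Finset.mem_filter.mp hw).2]
  · intro w hw
    simpa using hw

theorem prod_fib (n : ℕ) (T : Finset V) {R : Type*} [CommMonoid R] (F : ℕ → R) :
    ∏ w ∈ (D.preimage_finite n T).toFinset, F (D.deg n w) =
      ∏ v ∈ T, F (D.f n v * D.d v) ^ D.g n v := by
  classical
  rw [← Finset.prod_fiberwise_of_maps_to (g := D.π n) (t := T)]
  · refine Finset.prod_congr rfl fun v hv => ?_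
    rw [← D.card_filter n T v hv, ← Finset.prod_const]
    refine Finset.prod_congr rfl fun w hw => ?_
    rw [D.deg_eq, (Finset.mem_filter.mp hw).2]
  · intro w hw
    simpa using hw

theorem cg_fib {n : ℕ} {E : ℤ⟦X⟧} (hE : IsEuler (D.deg n) E) (N : ℕ) (T : Finset V)
    (hT : ∀ v, D.d v < N → v ∈ T) :
    Cg N (∏ v ∈ T, (1 - X ^ (D.f n v * D.d v) : ℤ⟦X⟧) ^ D.g n v) E := by
  have h1 := hE.cg N (D.preimage_finite n T).toFinset (fun w hw => by
    simpa using hT _ (lt_of_le_of_lt (D.d_le_deg n w) hw))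
  rwa [D.prod_fib n T (fun m => (1 - X ^ m : ℤ⟦X⟧))] at h1

theorem g_le_pow (n : ℕ) (v : V) : D.g n v ≤ p ^ n := by
  refine le_trans ?_ (D.fg_le n v)
  exact Nat.le_mul_of_pos_left _ (D.f_pos n v)

theorem f_one_of_g (n : ℕ) (v : V) (h : D.g n v = p ^ n) : D.f n v = 1 := by
  have h1 := D.fg_le n v
  rw [h] at h1
  have hp : 0 < p ^ n := pow_pos (by have := D.two_le; omega) n
  have h2 : D.f n v ≤ 1 := by
    by_contra hlt
    push Not at hlt
    have : 2 * p ^ n ≤ D.f n v * p ^ n := Nat.mul_le_mul_right _ hlt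
    omega
  have := D.f_pos n v
  omega

theorem g_stable (n : ℕ) (v : V) (h : D.g n v ≠ p ^ n) (m : ℕ) :
    D.g (n + m) v = D.g n v ∧ D.g (n + m) v ≠ p ^ (n + m) := by
  induction m with
  | zero => exact ⟨rfl, h⟩
  | succ m ih =>
    have h1 : D.g (n + m + 1) v ≠ p ^ (n + m + 1) := by
      have h2 := D.g_le (n + m) v
      have h3 : D.g (n + m) v < p ^ (n + m) := lt_of_le_of_ne (D.g_le_pow _ _) ih.2
      have hp : 0 < p := by have := D.two_le; omega
      have h4 : p * D.g (n + m) v < p * p ^ (n + m) := Nat.mul_lt_mul_of_pos_left h3 hp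
      rw [pow_succ, mul_comm (p ^ (n + m)) p]
      omega
    have h5 := (D.g_split (n + m) v).resolve_left h1
    exact ⟨by rw [← add_assoc, h5, ih.1], by rw [← add_assoc]; exact h1⟩

/-- completely split places -/
def cs (v : V) : Prop := ∀ n, D.g n v = p ^ n

/-- Local analysis at a place `v`. -/
theorem local_analysis (v : V) (hd : 0 < D.d v) :
    ∃ (r t : ℕ → ℕ) (n₁ : ℕ),
      (∀ k, k ≠ 0 → ∃ n₀, ∀ n, n₀ ≤ n → D.c n v k = r k + p ^ n * t k) ∧
      (∀ n, n₁ ≤ n → ∀ k, r k + p ^ n * t k ≤ D.c n v k) ∧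
      (v ∉ D.S → n₁ = 0) ∧
      (v ∉ D.S → ¬ D.cs v → ∀ k, r k = 0 ∧ t k = 0) := by
  classical
  by_cases hcs : D.cs v
  · -- completely split
    refine ⟨fun _ => 0, fun k => if D.d v ∣ k then D.d v else 0, 0, ?_, ?_, fun _ => rfl,
      fun _ h => absurd hcs h⟩
    · intro k _
      refine ⟨0, fun n _ => ?_⟩
      rw [c, D.f_one_of_g n v (hcs n), one_mul, hcs n]
      dsimp only
      split_ifs <;> simp
    · intro n _ k
      rw [c, D.f_one_of_g n v (hcs n), one_mul, hcs n]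
      dsimp only
      split_ifs <;> simp
  · have hcs' := hcs
    unfold cs at hcs'
    push Not at hcs'
    obtain ⟨m, hm⟩ := hcs'
    have hg : ∀ n, m ≤ n → D.g n v = D.g m v := by
      intro n hn
      obtain ⟨j, rfl⟩ := Nat.exists_eq_add_of_le hn
      exact (D.g_stable m v hm j).1
    by_cases hbdd : ∃ B, ∀ n, D.f n v ≤ B
    · obtain ⟨B, hB⟩ := hbdd
      obtain ⟨n₂, hn₂⟩ := eventually_const_of_bdd (fun n => D.f_mono n v) hB
      have hS : v ∈ D.S := by
        by_contra hS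
        have h1 := D.unr v hS (max m n₂)
        have h2 := D.unr v hS (max m n₂ + 1)
        rw [hg _ (le_max_left _ _), hn₂ _ (le_max_right _ _)] at h1
        rw [hg _ ((le_max_left _ _).trans (Nat.le_succ _)),
          hn₂ _ ((le_max_right _ _).trans (Nat.le_succ _))] at h2
        rw [h1] at h2
        have := Nat.pow_right_injective D.two_le h2
        omega
      refine ⟨fun k => if D.f n₂ v * D.d v ∣ k then D.g m v * (D.f n₂ v * D.d v) else 0,
        fun _ => 0, max m n₂, ?_, ?_, fun h => absurd hS h, fun h => absurd hS h⟩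
      · intro k _
        refine ⟨max m n₂, fun n hn => ?_⟩
        rw [c, hg n ((le_max_left _ _).trans hn), hn₂ n ((le_max_right _ _).trans hn)]
        simp
      · intro n hn k
        rw [c, hg n ((le_max_left _ _).trans hn), hn₂ n ((le_max_right _ _).trans hn)]
        simp
    · push Not at hbdd
      refine ⟨fun _ => 0, fun _ => 0, 0, ?_, fun n _ k => by simp, fun _ => rfl,
        fun _ _ k => ⟨rfl, rfl⟩⟩
      intro k hk
      obtain ⟨n₀, hn₀⟩ := hbdd k
      refine ⟨n₀, fun n hn => ?_⟩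
      have h1 : k < D.f n v := lt_of_lt_of_le hn₀ (monotone_nat_of_le_succ (fun n => D.f_mono n v) hn)
      have h2 : ¬ D.f n v * D.d v ∣ k := by
        intro h
        have h3 := Nat.le_of_dvd (Nat.pos_of_ne_zero hk) h
        have h4 : D.f n v ≤ D.f n v * D.d v := Nat.le_mul_of_pos_right _ hd
        omega
      rw [c, if_neg h2]
      simp

/-- The number of points of degree dividing `k`, at level `n`. -/
theorem newton_level {n : ℕ} {E : ℤ⟦X⟧} (hE : IsEuler (D.deg n) E) {P : Polynomial ℤ} {q : ℕ}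
    (hPE : (P : ℤ⟦X⟧) * E = (1 - X) * (1 - C (q : ℤ) * X)) (h0 : P.coeff 0 = 1)
    (k : ℕ) (hk : k ≠ 0) (T : Finset V) (hT : ∀ v, D.d v ≤ k → v ∈ T) :
    ((recRoots P).map fun a => a ^ k).sum + ((∑ v ∈ T, D.c n v k : ℕ) : ℂ) = 1 + (q : ℂ) ^ k := by
  classical
  have h1 := newton hE hPE (recRoots P) (map_eq_prod_recRoots h0) k hk
    (D.preimage_finite n T).toFinset (fun w hw => by
      simpa using hT _ ((D.d_le_deg n w).trans hw))
  rw [← h1]
  congr 1
  have h2 := D.sum_fib n T (fun m => if m ∣ k then m else 0)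
  rw [Finset.sum_filter]
  have h3 : ∑ v ∈ T, D.c n v k = ∑ w ∈ (D.preimage_finite n T).toFinset,
      if D.deg n w ∣ k then D.deg n w else 0 := by
    rw [h2]
    refine Finset.sum_congr rfl fun v _ => ?_
    rw [c]
    split_ifs <;> simp
  rw [h3]
  push_cast
  rfl

/-- The places of the base of degree at most `N` are finite in number. -/
theorem finite_base {E : ℤ⟦X⟧} (hE : IsEuler (D.deg 0) E) (N : ℕ) : {v | D.d v ≤ N}.Finite := by
  refine ((hE.fin N).image (D.π 0)).subset ?_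
  intro v hv
  have h1 : 0 < (D.π 0 ⁻¹' {v}).ncard := by rw [D.card_fib]; exact D.g_pos 0 v
  obtain ⟨w, hw⟩ := (Set.ncard_pos (D.fib_finite 0 v)).mp h1
  have hw' : D.π 0 w = v := hw
  refine ⟨w, ?_, hw'⟩
  show D.deg 0 w ≤ N
  rw [D.deg_eq, D.f_zero, one_mul, hw']
  exact hv

theorem d_pos {E : ℤ⟦X⟧} (hE : IsEuler (D.deg 0) E) (v : V) : 0 < D.d v := by
  have h1 : 0 < (D.π 0 ⁻¹' {v}).ncard := by rw [D.card_fib]; exact D.g_pos 0 v
  obtain ⟨w, hw⟩ := (Set.ncard_pos (D.fib_finite 0 v)).mp h1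
  have hw' : D.π 0 w = v := hw
  have h2 := hE.pos w
  rw [D.deg_eq, D.f_zero, one_mul, hw'] at h2
  exact h2

/-- If the splitting fields of the numerators have bounded degree along an infinite set, then
every place outside `S` is completely split. -/
theorem cs_of_bounded {E : ℕ → ℤ⟦X⟧} (hE : ∀ n, IsEuler (D.deg n) (E n)) {P : ℕ → Polynomial ℤ}
    {q : ℕ} (hq : 1 ≤ q) (hPE : ∀ n, (P n : ℤ⟦X⟧) * E n = (1 - X) * (1 - C (q : ℤ) * X))
    (h0 : ∀ n, (P n).coeff 0 = 1) (B : ℕ) (N : Set ℕ) (hN : N.Infinite)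
    (hB : ∀ n ∈ N, Module.finrank ℚ ((P n).map (Int.castRingHom ℚ)).SplittingField ≤ B)
    (v : V) (hv : v ∉ D.S) : D.cs v := by
  classical
  by_contra hcs
  have hd : ∀ v, 0 < D.d v := D.d_pos (hE 0)
  choose r t n₁ h1 h2 h3 h4 using fun v => D.local_analysis v (hd v)
  -- the finite sets of places of bounded degree
  have hfin : ∀ N, {v | D.d v ≤ N}.Finite := D.finite_base (hE 0)
  let A : ℕ → Finset V := fun k => (hfin k).toFinset
  have hA : ∀ k v, v ∈ A k ↔ D.d v ≤ k := fun k v => by simp [A]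
  -- the finite set of reciprocal roots
  have hWfin := northcottSet_finite q B
  let Wt : Finset ℂ := hWfin.toFinset.erase 0
  have hsub : ∀ n ∈ N, (recRoots (P n)).toFinset ⊆ Wt := by
    intro n hn a ha
    rw [Multiset.mem_toFinset] at ha
    refine Finset.mem_erase.mpr ⟨ne_zero_of_mem_recRoots (h0 n) ha, ?_⟩
    rw [Set.Finite.mem_toFinset]
    have hqpos : (0 : ℝ) < q := by exact_mod_cast hq
    refine mem_northcottSet (h0 n) hqpos (fun s hs => ?_) (hB n hn) ha
    exact aeval_ne_zero (hE n) hq (hPE n) s hs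
  have hsum : ∀ n ∈ N, ∀ k, ((recRoots (P n)).map fun a => a ^ k).sum =
      ∑ a ∈ Wt, ((recRoots (P n)).count a : ℂ) * a ^ k := by
    intro n hn k
    rw [Finset.sum_multiset_map_count]
    rw [Finset.sum_subset (hsub n hn)]
    · refine Finset.sum_congr rfl fun a _ => ?_
      rw [nsmul_eq_mul]
    · intro a _ ha
      rw [Multiset.count_eq_zero_of_notMem (fun h => ha (Multiset.mem_toFinset.mpr h)), zero_smul]
  -- N(n,k)
  let NN : ℕ → ℕ → ℕ := fun n k => ∑ v ∈ A k, D.c n v k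
  let RR : ℕ → ℕ := fun k => ∑ v ∈ A k, r v k
  let TT : ℕ → ℕ := fun k => ∑ v ∈ A k, t v k
  have hnewton : ∀ n ∈ N, ∀ k, k ≠ 0 →
      ∑ a ∈ Wt, ((recRoots (P n)).count a : ℂ) * a ^ k + (NN n k : ℂ) = 1 + (q : ℂ) ^ k := by
    intro n hn k hk
    rw [← hsum n hn k]
    exact D.newton_level (hE n) (hPE n) (h0 n) k hk (A k) (fun v hv => (hA k v).mpr hv)
  -- eventually NN n k = RR k + p ^ n * TT k
  have hev : ∀ k, k ≠ 0 → ∃ n₀, ∀ n, n₀ ≤ n → NN n k = RR k + p ^ n * TT k := by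
    intro k hk
    choose n₀ hn₀ using fun v => h1 v k hk
    refine ⟨(A k).sup n₀, fun n hn => ?_⟩
    simp only [NN, RR, TT, Finset.mul_sum]
    rw [← Finset.sum_add_distrib]
    refine Finset.sum_congr rfl fun v hv => hn₀ v n ?_
    exact (Finset.le_sup (f := n₀) hv).trans hn
  choose! n₀ hn₀ using hev
  let ns : ℕ := (Finset.range (Wt.card + 1)).sup n₀
  have hns : ∀ k, k ≠ 0 → k ≤ Wt.card → ∀ n, ns ≤ n → NN n k = RR k + p ^ n * TT k := by
    intro k hk hkW n hn
    exact hn₀ k hk n ((Finset.le_sup (f := n₀) (Finset.mem_range.mpr (by omega))).trans hn)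
  have hWt0 : (0 : ℂ) ∉ Wt := by simp [Wt]
  -- main linear algebra step
  have comb : ∀ a ∈ N, ∀ b ∈ N, ∀ e ∈ N, ns ≤ a → ns ≤ b → ns ≤ e → ∀ k, k ≠ 0 →
      ((p : ℂ) ^ e - p ^ b) * NN a k + ((p : ℂ) ^ a - p ^ e) * NN b k
        + ((p : ℂ) ^ b - p ^ a) * NN e k = 0 := by
    intro a ha b hb e he ha' hb' he' k hk
    let cc : ℂ → ℂ := fun x => ((p : ℂ) ^ e - p ^ b) * (recRoots (P a)).count x +
      ((p : ℂ) ^ a - p ^ e) * (recRoots (P b)).count x
      + ((p : ℂ) ^ b - p ^ a) * (recRoots (P e)).count x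
    have hcc : ∀ k, k ≠ 0 → ∑ x ∈ Wt, cc x * x ^ k =
        -(((p : ℂ) ^ e - p ^ b) * NN a k + ((p : ℂ) ^ a - p ^ e) * NN b k
        + ((p : ℂ) ^ b - p ^ a) * NN e k) := by
      intro k hk
      have e1 := hnewton a ha k hk
      have e2 := hnewton b hb k hk
      have e3 := hnewton e he k hk
      have e4 : ∑ x ∈ Wt, cc x * x ^ k =
          ((p : ℂ) ^ e - p ^ b) * (∑ x ∈ Wt, ((recRoots (P a)).count x : ℂ) * x ^ k)
          + ((p : ℂ) ^ a - p ^ e) * (∑ x ∈ Wt, ((recRoots (P b)).count x : ℂ) * x ^ k)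
          + ((p : ℂ) ^ b - p ^ a) * (∑ x ∈ Wt, ((recRoots (P e)).count x : ℂ) * x ^ k) := by
        rw [Finset.mul_sum, Finset.mul_sum, Finset.mul_sum, ← Finset.sum_add_distrib,
          ← Finset.sum_add_distrib]
        refine Finset.sum_congr rfl fun x _ => ?_
        simp only [cc]
        ring
      rw [e4]
      linear_combination ((p : ℂ) ^ e - p ^ b) * e1 + ((p : ℂ) ^ a - p ^ e) * e2
        + ((p : ℂ) ^ b - p ^ a) * e3
    have hc0 : ∀ x ∈ Wt, cc x = 0 := by
      refine vandermonde_finset Wt hWt0 cc fun k hk1 hkW => ?_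
      have hk : k ≠ 0 := by omega
      rw [hcc k hk, hns k hk hkW a ha', hns k hk hkW b hb', hns k hk hkW e he']
      push_cast
      ring
    have h5 := hcc k hk
    rw [Finset.sum_eq_zero (fun x hx => by rw [hc0 x hx, zero_mul])] at h5
    linear_combination h5
  -- the exact formula for all k
  have exact_formula : ∀ a ∈ N, ns ≤ a → ∀ k, k ≠ 0 → NN a k = RR k + p ^ a * TT k := by
    intro a ha ha' k hk
    obtain ⟨b, hb, hb'⟩ := hN.exists_gt (max ns (n₀ k))
    obtain ⟨e, he, he'⟩ := hN.exists_gt b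
    have hbns : ns ≤ b := (le_max_left _ _).trans hb'.le
    have hbk : n₀ k ≤ b := (le_max_right _ _).trans hb'.le
    have h5 := comb a ha b hb e he ha' hbns (hbns.trans he'.le) k hk
    rw [hn₀ k hk b hbk, hn₀ k hk e (hbk.trans he'.le)] at h5
    have hne : ((p : ℂ) ^ e - p ^ b) ≠ 0 := by
      rw [sub_ne_zero]
      intro h
      have h6 : p ^ e = p ^ b := by exact_mod_cast h
      have := Nat.pow_right_injective D.two_le h6
      omega
    have h7 : ((p : ℂ) ^ e - p ^ b) * ((NN a k : ℂ) - (RR k + p ^ a * TT k)) = 0 := by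
      push_cast at h5
      linear_combination h5
    have h8 := (mul_eq_zero.mp h7).resolve_left hne
    have h9 : ((NN a k : ℕ) : ℂ) = ((RR k + p ^ a * TT k : ℕ) : ℂ) := by
      push_cast
      linear_combination h8
    exact_mod_cast h9
  -- choose a large element of N
  obtain ⟨a, ha, ha'⟩ := hN.exists_gt (max ns (D.S_fin.toFinset.sup n₁))
  have hans : ns ≤ a := (le_max_left _ _).trans ha'.le
  have han₁ : ∀ v, n₁ v ≤ a := by
    intro v
    by_cases hvS : v ∈ D.S
    · exact (Finset.le_sup (f := n₁) (D.S_fin.mem_toFinset.mpr hvS)).trans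
        ((le_max_right _ _).trans ha'.le)
    · rw [h3 v hvS]
      exact Nat.zero_le _
  set k := D.f a v * D.d v with hk
  have hk0 : k ≠ 0 := (Nat.mul_pos (D.f_pos a v) (hd v)).ne'
  have h5 := exact_formula a ha hans k hk0
  have h6 : ∑ v ∈ A k, (r v k + p ^ a * t v k) = ∑ v ∈ A k, D.c a v k := by
    have : NN a k = ∑ v ∈ A k, D.c a v k := rfl
    rw [← this, h5, Finset.sum_add_distrib, ← Finset.mul_sum]
  have h7 := (Finset.sum_eq_sum_iff_of_le (fun v _ => h2 v a (han₁ v) k)).mp h6 v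
    ((hA k v).mpr (by rw [hk]; exact Nat.le_mul_of_pos_left _ (D.f_pos a v)))
  obtain ⟨hr, ht⟩ := h4 v hv hcs k
  rw [hr, ht, c, if_pos (dvd_refl _)] at h7
  have := Nat.mul_pos (D.g_pos a v) (Nat.pos_of_ne_zero hk0)
  rw [mul_zero, add_zero] at h7
  exact this.ne h7

end TowerData

end Pool.Agent.Helper2.Zp
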